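import Pool.Agent.Work.MP_b51559_nt.DN.Stmts

set_option autoImplicit false

/-!
# Block DP: density from the five groups property, definitions
-/

namespace MPb51559.DP

open Finset
open scoped Classical

/-- the primes up to `z` -/
def pz (z : ℕ) : Finset ℕ := (range (z + 1)).filter Nat.Prime

theorem prod_pz (z : ℕ) : ∏ p ∈ pz z, p = primorial z := rfl

/-- the singular series restricted to the primes up to `z` (local weight `DN.wl`) -/
noncomputable def wz (z h : ℕ) : ℝ := ∏ p ∈ pz z, DN.wl p h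

/-- the density of the integers prime to `primorial z` -/
noncomputable def dz (z : ℕ) : ℝ := ∏ p ∈ pz z, (1 - 1 / (p : ℝ))

/-- the integers in (L, N] prime to `primorial z` -/
def Bz (z L N : ℕ) : Finset ℕ := (Ioc L N).filter (fun b => b.Coprime (primorial z))

/-- the weighted mean of `P` (`DN.PP P N` are the elements of `P` in [1, N]) -/
noncomputable def Wz (z : ℕ) (P : Set ℕ) (N : ℕ) : ℝ := (∑ h ∈ DN.PP P N, wz z h) / N

/-- five groups of `κ` integers in [1, H] prime to `primorial z`, the groups in increasing order,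
have a difference in `P` between two different groups -/
def Grp5 (κ z : ℕ) (P : Set ℕ) (H : ℕ) : Prop := ∀ A : Fin 5 → Finset ℕ,
  (∀ i, (A i).card = κ) → (∀ i, ∀ b ∈ A i, 1 ≤ b ∧ b ≤ H ∧ b.Coprime (primorial z)) →
  (∀ i j, i < j → ∀ a ∈ A i, ∀ b ∈ A j, a < b) →
  ∃ i j, i < j ∧ ∃ a ∈ A i, ∃ b ∈ A j, b - a ∈ P

/-- local factor of the tail -/
noncomputable def ul (p n : ℕ) : ℝ := if p ∣ n then ((p : ℝ) - 1) / (p - 2) else 1

/-- the primes in (47, z] -/
def pt (z : ℕ) : Finset ℕ := (pz z).filter (fun p => 47 < p)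

/-- sum over all divisibility patterns, real version -/
noncomputable def rc (g : ℝ → ℝ) : List ℕ → ℝ → ℝ → ℝ
  | [], u, v => u * g v
  | p :: l, u, v => rc g l u (v * ((p : ℝ) / (p - 1))) +
      rc g l (u * ((p : ℝ) - 1)) (v * ((p : ℝ) * (p - 2) / (p - 1) ^ 2))

/-- sum over all divisibility patterns, integer version -/
def rk : List ℕ → ℕ → ℕ → ℕ → ℕ
  | [], c, u, v => u * (v - c)
  | p :: l, c, u, v => rk l c u (v * (p - 1)) + rk l c (u * (p - 1)) (v * (p - 2))

/-- the odd primes up to 47 -/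
def lp : List ℕ := [3, 5, 7, 11, 13, 17, 19, 23, 29, 31, 37, 41, 43, 47]

end MPb51559.DP
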