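import Pool.Agent.Work.MP_b51559_nt.DP.Stmts
import Pool.Agent.Work.MP_b51559_nt.DN.CRT
import Pool.Agent.Work.MP_b51559_nt.DN.PER
import Pool.Agent.Work.MP_b51559_nt.DN.C2

/-!
# Block DP, item C2: pairs of integers prime to the primorial
-/

set_option autoImplicit false

namespace MPb51559.DP

open Finset
open scoped Classical

theorem C2_prime {z p : ℕ} (hp : p ∈ pz z) : p.Prime := (mem_filter.1 hp).2

theorem C2_ind (z h n : ℕ) : (∏ p ∈ pz z, DN.C2_f h p n) =
    if n.Coprime (primorial z) ∧ (n + h).Coprime (primorial z) then (1 : ℝ) else 0 := by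
  have e1 : ∀ m : ℕ, m.Coprime (primorial z) ↔ ∀ p ∈ pz z, ¬ p ∣ m := by
    intro m
    rw [← prod_pz, Nat.coprime_prod_right_iff]
    refine forall₂_congr fun p hp => ?_
    rw [Nat.coprime_comm, (C2_prime hp).coprime_iff_not_dvd]
  by_cases hc : n.Coprime (primorial z) ∧ (n + h).Coprime (primorial z)
  · rw [if_pos hc]
    refine prod_eq_one fun p hp => ?_
    unfold DN.C2_f
    rw [if_neg]
    rintro (h1 | h1)
    · exact (e1 n).1 hc.1 p hp h1
    · exact (e1 (n + h)).1 hc.2 p hp h1
  · rw [if_neg hc]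
    have : ∃ p ∈ pz z, p ∣ n ∨ p ∣ n + h := by
      by_contra hcon
      push Not at hcon
      exact hc ⟨(e1 n).2 fun p hp => (hcon p hp).1, (e1 (n + h)).2 fun p hp => (hcon p hp).2⟩
    obtain ⟨p, hp, h1⟩ := this
    refine prod_eq_zero hp ?_
    unfold DN.C2_f
    rw [if_pos h1]

/-- item C2 -/
theorem prf_C2 : D_C2 := by
  intro z h L N hLN
  have hpr : ∀ p ∈ pz z, p.Prime := fun p hp => C2_prime hp
  have hQ : 0 < primorial z := primorial_pos z
  have hQR : (0 : ℝ) < primorial z := by exact_mod_cast hQ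
  set F : ℕ → ℝ := fun n => ∏ p ∈ pz z, DN.C2_f h p n with hF
  have hF0 : ∀ n, 0 ≤ F n := fun n => prod_nonneg fun p _ => DN.C2_f_nonneg h p n
  have hS : ∑ n ∈ range (primorial z), F n = ∏ p ∈ pz z, ∑ n ∈ range p, DN.C2_f h p n := by
    rw [← prod_pz]
    exact DN.prf_CRT (pz z) hpr (DN.C2_f h) fun p _ n => DN.C2_f_per h p n p dvd_rfl
  have hS1 : ∑ n ∈ range (primorial z), F n = primorial z * (dz z ^ 2 * wz z h) := by
    rw [hS, prod_congr rfl fun p hp => DN.C2_loc h p (hpr p hp), prod_mul_distrib,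
      prod_mul_distrib, prod_pow]
    unfold dz wz
    rw [← prod_pz]
    push_cast
    ring
  have hS2 : ∑ n ∈ range (primorial z), F n ≤ primorial z := by
    calc ∑ n ∈ range (primorial z), F n ≤ ∑ n ∈ range (primorial z), (1 : ℝ) := by
          refine sum_le_sum fun n _ => ?_
          exact prod_le_one (fun p _ => DN.C2_f_nonneg h p n) fun p _ => DN.C2_f_le h p n
      _ = primorial z := by simp
  have hper := DN.prf_PER (primorial z) hQ F hF0
    (fun n => prod_congr rfl fun p hp => DN.C2_f_per h p n (primorial z)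
      (by rw [← prod_pz]; exact dvd_prod_of_mem _ hp))
  have hcount : (((Bz z L N).filter (fun x => (x + h).Coprime (primorial z))).card : ℝ) =
      ∑ n ∈ Ioc L N, F n := by
    rw [hF]
    simp_rw [C2_ind]
    rw [sum_boole, Bz, filter_filter]
  have hsplit : ∑ n ∈ Icc 1 N, F n = ∑ n ∈ Icc 1 L, F n + ∑ n ∈ Ioc L N, F n := by
    rw [← sum_union]
    · congr 1
      ext n
      simp only [mem_Icc, mem_union, mem_Ioc]
      omega
    · rw [disjoint_left]
      intro n hn hn'
      simp only [mem_Icc, mem_Ioc] at hn hn'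
      omega
  rw [hcount]
  have h3 := (abs_le.1 (hper N)).2
  have h4 := (abs_le.1 (hper L)).1
  have h5 : ∀ x : ℝ, x / primorial z * ∑ n ∈ range (primorial z), F n =
      dz z ^ 2 * wz z h * x := by
    intro x
    rw [hS1]
    field_simp
  rw [h5] at h3 h4
  have h6 : dz z ^ 2 * wz z h * ((N : ℝ) - L) =
      dz z ^ 2 * wz z h * N - dz z ^ 2 * wz z h * L := by ring
  rw [h6]
  linarith

end MPb51559.DP
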