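import Pool.Agent.Work.MP_b51559_nt.DP.Stmts
import Pool.Agent.Work.MP_b51559_nt.DN.CRT
import Pool.Agent.Work.MP_b51559_nt.DN.PER

set_option autoImplicit false

/-!
# Block DP: item CB
-/

namespace MPb51559.DP

open Finset
open scoped Classical

theorem CB_prime {z p : ℕ} (hp : p ∈ pz z) : p.Prime := by
  unfold pz at hp
  exact (mem_filter.1 hp).2

/-- the local indicator -/
noncomputable def CB_f (p n : ℕ) : ℝ := if p ∣ n then 0 else 1

theorem CB_per (p n : ℕ) : CB_f p (n + p) = CB_f p n := by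
  unfold CB_f
  by_cases h : p ∣ n
  · rw [if_pos h, if_pos ((Nat.dvd_add_left (dvd_refl p)).2 h)]
  · rw [if_neg h, if_neg (fun h' => h ((Nat.dvd_add_left (dvd_refl p)).1 h'))]

theorem CB_nonneg (p n : ℕ) : 0 ≤ CB_f p n := by
  unfold CB_f
  split_ifs <;> norm_num

theorem CB_sum {p : ℕ} (hp : 0 < p) : ∑ n ∈ range p, CB_f p n = (p : ℝ) - 1 := by
  obtain ⟨m, rfl⟩ : ∃ m, p = m + 1 := ⟨p - 1, by omega⟩
  rw [sum_range_succ']
  have h1 : ∀ n ∈ range m, CB_f (m + 1) (n + 1) = 1 := by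
    intro n hn
    unfold CB_f
    rw [if_neg]
    intro h
    have := Nat.le_of_dvd (Nat.succ_pos n) h
    have := mem_range.1 hn
    omega
  rw [sum_congr rfl h1]
  have h2 : CB_f (m + 1) 0 = 0 := by
    unfold CB_f
    rw [if_pos (dvd_zero _)]
  rw [h2]
  simp

theorem CB_ind (z n : ℕ) :
    ∏ p ∈ pz z, CB_f p n = if n.Coprime (primorial z) then (1 : ℝ) else 0 := by
  have h1 : n.Coprime (primorial z) ↔ ∀ p ∈ pz z, ¬ p ∣ n := by
    rw [← prod_pz, Nat.coprime_prod_right_iff]
    refine forall₂_congr fun p hp => ?_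
    rw [Nat.coprime_comm]
    exact (CB_prime hp).coprime_iff_not_dvd
  by_cases h : n.Coprime (primorial z)
  · rw [if_pos h]
    refine prod_eq_one fun p hp => ?_
    unfold CB_f
    rw [if_neg (h1.1 h p hp)]
  · rw [if_neg h]
    rw [h1] at h
    push Not at h
    obtain ⟨p, hp, hd⟩ := h
    refine prod_eq_zero hp ?_
    unfold CB_f
    rw [if_pos hd]

theorem CB_dvd {z p : ℕ} (hp : p ∈ pz z) : p ∣ primorial z := by
  rw [← prod_pz]
  exact dvd_prod_of_mem _ hp

theorem CB_add_mul (p n k : ℕ) : CB_f p (n + p * k) = CB_f p n := by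
  induction k with
  | zero => rw [mul_zero, add_zero]
  | succ k ih => rw [mul_add, mul_one, ← add_assoc, CB_per, ih]

theorem CB_pos (z : ℕ) : 0 < primorial z := by
  rw [← prod_pz]
  exact prod_pos fun p hp => (CB_prime hp).pos

/-- the count on [1, N] -/
theorem CB_one (z N : ℕ) :
    |(((Icc 1 N).filter (fun b => b.Coprime (primorial z))).card : ℝ) - dz z * N| ≤
      primorial z := by
  have e1 := DN.prf_CRT (pz z) (fun p hp => CB_prime hp) CB_f (fun p _ n => CB_per p n)
  have e2 : ∏ p ∈ pz z, ∑ n ∈ range p, CB_f p n = ∏ p ∈ pz z, ((p : ℝ) - 1) :=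
    prod_congr rfl fun p hp => CB_sum (CB_prime hp).pos
  have e3 : ∏ p ∈ pz z, ((p : ℝ) - 1) = dz z * (primorial z : ℕ) := by
    unfold dz
    rw [← prod_pz, Nat.cast_prod, ← prod_mul_distrib]
    refine prod_congr rfl fun p hp => ?_
    have : (p : ℝ) ≠ 0 := by exact_mod_cast (CB_prime hp).ne_zero
    field_simp
  have e4 : ∏ p ∈ pz z, ((p : ℝ) - 1) ≤ ((primorial z : ℕ) : ℝ) := by
    rw [← prod_pz, Nat.cast_prod]
    refine prod_le_prod (fun p hp => ?_) fun p hp => ?_
    · have : (1 : ℝ) ≤ p := by exact_mod_cast (CB_prime hp).one_le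
      linarith
    · linarith
  have e5 := DN.prf_PER (primorial z) (CB_pos z) (fun n => ∏ p ∈ pz z, CB_f p n)
    (fun n => prod_nonneg fun p _ => CB_nonneg p n) (fun n => by
      refine prod_congr rfl fun p hp => ?_
      obtain ⟨k, hk⟩ := CB_dvd hp
      rw [hk, CB_add_mul]) N
  have e6 : ∑ n ∈ range (primorial z), ∏ p ∈ pz z, CB_f p n = dz z * (primorial z : ℕ) := by
    rw [← e3, ← e2]
    exact e1
  have e7 : ∑ n ∈ Icc 1 N, ∏ p ∈ pz z, CB_f p n =
      (((Icc 1 N).filter (fun b => b.Coprime (primorial z))).card : ℝ) := by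
    rw [card_filter, Nat.cast_sum]
    refine sum_congr rfl fun n _ => ?_
    rw [CB_ind]
    split_ifs <;> simp
  rw [e7, e6] at e5
  have e8 : (N : ℝ) / (primorial z : ℕ) * (dz z * (primorial z : ℕ)) = dz z * N := by
    have : ((primorial z : ℕ) : ℝ) ≠ 0 := by exact_mod_cast (CB_pos z).ne'
    field_simp
  rw [e8] at e5
  refine e5.trans ?_
  rw [← e3]
  exact e4

/-- Item CB. -/
theorem prf_CB : D_CB := by
  intro z L N hLN
  have h1 := CB_one z N
  have h2 := CB_one z L
  have h3 : ((Bz z L N).card : ℝ) + (((Icc 1 L).filter (fun b => b.Coprime (primorial z))).card : ℝ) =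
      (((Icc 1 N).filter (fun b => b.Coprime (primorial z))).card : ℝ) := by
    rw [← Nat.cast_add, ← card_union_of_disjoint]
    · congr 2
      ext n
      unfold Bz
      simp only [mem_union, mem_filter, mem_Ioc, mem_Icc]
      constructor
      · rintro (⟨⟨h4, h5⟩, h6⟩ | ⟨⟨h4, h5⟩, h6⟩)
        · exact ⟨⟨by omega, h5⟩, h6⟩
        · exact ⟨⟨h4, by omega⟩, h6⟩
      · rintro ⟨⟨h4, h5⟩, h6⟩
        by_cases h7 : n ≤ L
        · exact Or.inr ⟨⟨h4, h7⟩, h6⟩
        · exact Or.inl ⟨⟨by omega, h5⟩, h6⟩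
    · rw [disjoint_left]
      intro n h4 h5
      unfold Bz at h4
      rw [mem_filter, mem_Ioc] at h4
      rw [mem_filter, mem_Icc] at h5
      omega
  have h4 : ((Bz z L N).card : ℝ) - dz z * ((N : ℝ) - L) =
      ((((Icc 1 N).filter (fun b => b.Coprime (primorial z))).card : ℝ) - dz z * N) -
      ((((Icc 1 L).filter (fun b => b.Coprime (primorial z))).card : ℝ) - dz z * L) := by
    linear_combination h3
  rw [h4]
  refine (abs_sub _ _).trans ?_
  linarith

end MPb51559.DP
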