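import Pool.Agent.Work.MP_b51559_nt.DP.Stmts

set_option autoImplicit false

/-!
# Block DP, item DEN: a large weighted mean gives a large density
-/

namespace MPb51559.DP

open Finset
open scoped Classical

theorem DEN_sum (z : ℕ) (P : Set ℕ) (N : ℕ) :
    (N : ℝ) * Wz z P N = ∑ h ∈ DN.PP P N, wz z h := by
  unfold Wz
  rcases Nat.eq_zero_or_pos N with rfl | hN
  · have h0 : DN.PP P 0 = ∅ := by
      unfold DN.PP
      rw [Finset.Icc_eq_empty (by norm_num), Finset.filter_empty]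
    rw [h0, Finset.sum_empty, zero_div, mul_zero]
  · have hN' : (N : ℝ) ≠ 0 := by exact_mod_cast hN.ne'
    rw [mul_comm, div_mul_cancel₀ _ hN']

theorem DEN_tru (z : ℕ) (P : Set ℕ) (N : ℕ) : (N : ℝ) * Wz z P N ≤
    57 / 20 * ((DN.PP P N).card : ℝ) + ∑ h ∈ Icc 1 N, max (wz z h - 57 / 20) 0 := by
  rw [DEN_sum]
  have h1 : ∑ h ∈ DN.PP P N, wz z h ≤ ∑ h ∈ DN.PP P N, (57 / 20 + max (wz z h - 57 / 20) 0) := by
    refine Finset.sum_le_sum fun h _ => ?_
    have := le_max_left (wz z h - 57 / 20) 0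
    linarith
  refine h1.trans ?_
  rw [Finset.sum_add_distrib, Finset.sum_const, nsmul_eq_mul, mul_comm]
  refine add_le_add le_rfl ?_
  exact Finset.sum_le_sum_of_subset_of_nonneg (Finset.filter_subset _ _)
    fun h _ _ => le_max_right _ _

theorem prf_DEN (h1 : D_MEAN) : D_DEN := by
  intro z hz
  refine ⟨⌈10000 * ((primorial z : ℝ) / dz z)⌉₊, fun P N hN hW => ?_⟩
  have a1 := DEN_tru z P N
  have a2 := h1 z hz N
  have hn : (0 : ℝ) ≤ N := Nat.cast_nonneg N
  have a3 : (N : ℝ) * (1 / 4 - 1 / 10000) ≤ N * Wz z P N := mul_le_mul_of_nonneg_left hW hn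
  have a4 : 10000 * ((primorial z : ℝ) / dz z) ≤ N := Nat.ceil_le.1 hN
  have a5 : (100 : ℝ) * N ≤ 1396 * ((DN.PP P N).card : ℝ) := by
    generalize (primorial z : ℝ) / dz z = K at a2 a4
    norm_num at a1 a2 a3 a4 ⊢
    linarith
  exact_mod_cast a5

end MPb51559.DP
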