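import Pool.Agent.Work.MP_b51559_nt.DP.Stmts

set_option autoImplicit false

/-!
# Block DP, item E47
-/

namespace MPb51559.DP

open Finset
open scoped Classical

theorem E47_zero (τ : ℝ) (hτ : 0 ≤ τ) : ∀ (l : List ℕ) (u : ℝ),
    rc (fun t => max (t - τ) 0) l u 0 = 0 := by
  intro l
  induction l with
  | nil =>
    intro u
    rw [rc]
    rw [max_eq_right (by linarith)]
    ring
  | cons p l ih =>
    intro u
    rw [rc, zero_mul, zero_mul, ih, ih]
    ring

theorem E47_pz : pz 47 = {2, 3, 5, 7, 11, 13, 17, 19, 23, 29, 31, 37, 41, 43, 47} := by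
  decide +kernel

theorem E47_wz (n : ℕ) : wz 47 n = 1 * ((2 :: lp).map (fun p => DN.wl p n)).prod := by
  rw [wz, E47_pz, one_mul]
  simp only [lp, List.map_cons, List.map_nil, List.prod_cons, List.prod_nil]
  rw [Finset.prod_insert (by decide), Finset.prod_insert (by decide),
    Finset.prod_insert (by decide), Finset.prod_insert (by decide),
    Finset.prod_insert (by decide), Finset.prod_insert (by decide),
    Finset.prod_insert (by decide), Finset.prod_insert (by decide),
    Finset.prod_insert (by decide), Finset.prod_insert (by decide),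
    Finset.prod_insert (by decide), Finset.prod_insert (by decide),
    Finset.prod_insert (by decide), Finset.prod_insert (by decide), Finset.prod_singleton]
  ring

theorem E47_prime : ∀ p ∈ (2 :: lp), p.Prime := by
  intro p hp
  have h1 : p ∈ pz 47 := by
    rw [E47_pz]
    simp only [lp, List.mem_cons, List.not_mem_nil, or_false] at hp
    simp only [Finset.mem_insert, Finset.mem_singleton]
    exact hp
  rw [pz, Finset.mem_filter] at h1
  exact h1.2

theorem prf_E47 (h1 : D_REC) (h2 : D_RCK) (h3 : D_KER) : D_E47 := by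
  obtain ⟨k1, k2, k3⟩ := h3
  unfold D_E47
  have hprod : (2 :: lp).prod = primorial 47 := by
    rw [List.prod_cons]
    exact k3
  have hnd : (2 :: lp).Nodup := by decide
  have hR := h1 (fun t => max (t - 57 / 20) 0) (2 :: lp) hnd E47_prime 1 1
  rw [hprod, one_mul] at hR
  have hS : ∑ n ∈ range (primorial 47), max (wz 47 n - 57 / 20) 0 =
      rc (fun t => max (t - 57 / 20) 0) lp 1 2 := by
    have e1 : ∑ n ∈ range (primorial 47), max (wz 47 n - 57 / 20) 0 =
        ∑ n ∈ range (primorial 47),
          (fun t : ℝ => max (t - 57 / 20) 0) (1 * ((2 :: lp).map (fun p => DN.wl p n)).prod) := by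
      refine Finset.sum_congr rfl fun n _ => ?_
      rw [E47_wz]
    rw [e1, hR, rc]
    have e2 : (1 : ℝ) * (((2 : ℕ) : ℝ) / (((2 : ℕ) : ℝ) - 1)) = 2 := by norm_num
    have e3 : (1 : ℝ) * (((2 : ℕ) : ℝ) * (((2 : ℕ) : ℝ) - 2) / (((2 : ℕ) : ℝ) - 1) ^ 2) = 0 := by
      norm_num
    rw [e2, e3, E47_zero _ (by norm_num), add_zero]
  rw [hS]
  set E : ℕ := (lp.map (fun p => (p - 1) ^ 2)).prod with hE
  have hEpos : 0 < E := by
    rw [hE]
    decide +kernel
  have hc : ((57 * (E / 20) : ℕ) : ℝ) = 57 / 20 * (E : ℝ) := by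
    obtain ⟨m, hm⟩ := k2
    rw [hm, Nat.mul_div_cancel_left m (by norm_num)]
    push_cast
    ring
  have hV := h2 (57 / 20) E (57 * (E / 20)) (by exact_mod_cast hEpos) hc lp (by decide) 1
    (2 * lp.prod)
  have hv : ((2 * lp.prod : ℕ) : ℝ) * (lp.map (fun p : ℕ => ((p : ℝ) - 1) ^ 2 / p)).prod / (E : ℝ) =
      2 := by
    have e4 : ∀ l : List ℕ, (∀ p ∈ l, 2 ≤ p) →
        ((l.prod : ℕ) : ℝ) * (l.map (fun p : ℕ => ((p : ℝ) - 1) ^ 2 / p)).prod =
          (((l.map (fun p => (p - 1) ^ 2)).prod : ℕ) : ℝ) := by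
      intro l
      induction l with
      | nil => intro _; simp
      | cons p l ih =>
        intro hl
        have hp : 2 ≤ p := hl p (List.mem_cons_self)
        have hl' := ih (fun q hq => hl q (List.mem_cons_of_mem _ hq))
        rw [List.map_cons, List.map_cons, List.prod_cons, List.prod_cons, List.prod_cons]
        push_cast at hl' ⊢
        rw [← hl', Nat.cast_sub (by omega)]
        have hp0 : (p : ℝ) ≠ 0 := by
          have : 0 < p := by omega
          exact_mod_cast this.ne'
        field_simp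
        push_cast
        ring
    have e5 := e4 lp (by decide)
    rw [← hE] at e5
    have hE0 : (E : ℝ) ≠ 0 := by exact_mod_cast hEpos.ne'
    rw [div_eq_iff hE0, ← e5]
    push_cast
    ring
  rw [hv] at hV
  have hV' : rc (fun t => max (t - 57 / 20) 0) lp 1 2 =
      (rk lp (57 * (E / 20)) 1 (2 * lp.prod) : ℝ) / E := by
    have := hV
    push_cast at this ⊢
    exact_mod_cast this
  rw [hV', div_le_iff₀ (by exact_mod_cast hEpos)]
  have k1' : ((100000 * rk lp (57 * (E / 20)) 1 (2 * lp.prod) : ℕ) : ℝ) ≤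
      ((4072 * (primorial 47 * E) : ℕ) : ℝ) := by
    exact_mod_cast k1
  push_cast at k1'
  linarith

end MPb51559.DP
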