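import Pool.Agent.Work.MP_b51559_nt.DP.Stmts

set_option autoImplicit false

/-!
# Block DP, item KER: the integer computation
-/

namespace MPb51559.DP

set_option maxRecDepth 100000 in
theorem prf_KER : D_KER := by
  unfold D_KER
  refine ⟨?_, ?_, ?_⟩
  · decide +kernel
  · decide +kernel
  · decide +kernel

end MPb51559.DP
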