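import Pool.Agent.Work.MP_b51559_nt.DP.Stmts

set_option autoImplicit false

/-!
# Block DP: KEY
-/

namespace MPb51559.DP

open Finset
open scoped Classical

/-- a separated sequence is separated for all pairs -/
theorem KEY_chain (r C : ℕ) (hC : 1 ≤ C) (N : ℕ → ℕ)
    (h : ∀ j, j + 1 < r → C * N j ≤ N (j + 1)) :
    ∀ d i : ℕ, i + (d + 1) < r → C * N i ≤ N (i + (d + 1)) := by
  intro d
  induction d with
  | zero =>
    intro i hi
    exact h i hi
  | succ d ih =>
    intro i hi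
    have h1 : C * N i ≤ N (i + (d + 1)) := ih i (by omega)
    have h2 : C * N (i + (d + 1)) ≤ N (i + (d + 1) + 1) := h _ (by omega)
    have h3 : N (i + (d + 1)) ≤ C * N (i + (d + 1)) := Nat.le_mul_of_pos_left _ (by omega)
    calc C * N i ≤ N (i + (d + 1)) := h1
      _ ≤ C * N (i + (d + 1)) := h3
      _ ≤ N (i + (d + 1) + 1) := h2
      _ = N (i + (d + 1 + 1)) := by ring_nf

theorem KEY_dvd {m n : ℕ} (h : m ≤ n) : primorial m ∣ primorial n :=
  prod_dvd_prod_of_subset _ _ _ (filter_subset_filter _ (range_mono (Nat.succ_le_succ h)))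

theorem prf_KEY (h1 : D_SEP) (h2 : D_DEN) : D_KEY := by
  intro κ z
  obtain ⟨r, M0, C, hS⟩ := h1 κ (max z 47) (1 / 10000) (by norm_num)
  obtain ⟨N0, hD⟩ := h2 (max z 47) (le_max_right _ _)
  refine ⟨r, max M0 N0, max C 1, ?_⟩
  intro H P hP N hN hch
  have hP' : Grp5 κ (max z 47) P H := by
    intro A hA hb ho
    exact hP A hA (fun i b hbi => ⟨(hb i b hbi).1, (hb i b hbi).2.1,
      (hb i b hbi).2.2.coprime_dvd_right (KEY_dvd (le_max_left _ _))⟩) ho
  have hkey := KEY_chain r (max C 1) (le_max_right _ _) N hch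
  obtain ⟨j, hj⟩ := hS H P hP' (fun j : Fin r => N j)
    (fun j => ⟨le_trans (le_max_left _ _) (hN j j.2).1, (hN j j.2).2⟩)
    (by
      intro i j hij
      have hij' : (i : ℕ) < (j : ℕ) := hij
      obtain ⟨d, hd⟩ : ∃ d, (j : ℕ) = (i : ℕ) + (d + 1) := ⟨(j : ℕ) - (i : ℕ) - 1, by omega⟩
      have h3 := hkey d i (by rw [← hd]; exact j.2)
      rw [← hd] at h3
      exact le_trans (Nat.mul_le_mul_right _ (le_max_left _ _)) h3)
  exact ⟨j, j.2, hD P (N j) (le_trans (le_max_right _ _) (hN j j.2).1) hj⟩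

end MPb51559.DP
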