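import Pool.Agent.Work.MP_b51559_nt.DP.Stmts

set_option autoImplicit false

/-!
# Block DP, item KS1: one step of Kovari, Sos, Turan
-/

namespace MPb51559.DP

open Finset
open scoped Classical

/-- a subset of given size with at least the average sum -/
theorem KS1_avg (f : ℕ → ℝ) (a : ℝ) (m : ℕ) : ∀ (n : ℕ) (V : Finset ℕ), V.card = m + n →
    a * V.card ≤ ∑ v ∈ V, f v → ∃ B ⊆ V, B.card = m ∧ a * m ≤ ∑ v ∈ B, f v := by
  intro n
  induction n with
  | zero =>
    intro V hV h
    refine ⟨V, subset_rfl, by simpa using hV, ?_⟩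
    rw [hV] at h
    simpa using h
  | succ n ih =>
    intro V hV h
    have hne : V.Nonempty := by
      rw [← card_pos]
      omega
    obtain ⟨v, hv, hmin⟩ := exists_min_image V f hne
    have hcard : (V.erase v).card = m + n := by
      rw [card_erase_of_mem hv]
      omega
    have hsum : ∑ u ∈ V.erase v, f u + f v = ∑ u ∈ V, f u := sum_erase_add V f hv
    have havg : (V.card : ℝ) * f v ≤ ∑ u ∈ V, f u := by
      have := card_nsmul_le_sum V f (f v) hmin
      simpa [nsmul_eq_mul] using this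
    have hVc : (V.card : ℝ) = (m + n : ℕ) + 1 := by
      rw [hV]
      push_cast
      ring
    have hstep : a * (V.erase v).card ≤ ∑ u ∈ V.erase v, f u := by
      rw [hcard]
      have hN : (0 : ℝ) ≤ ((m + n : ℕ) : ℝ) := Nat.cast_nonneg _
      rw [hVc] at h havg
      set N : ℝ := ((m + n : ℕ) : ℝ)
      set Sg : ℝ := ∑ u ∈ V, f u
      have e1 : ∑ u ∈ V.erase v, f u = Sg - f v := by linarith
      rw [e1]
      have e2 : N * (a * (N + 1)) ≤ N * Sg := mul_le_mul_of_nonneg_left h hN
      have e3 : (N + 1) * (a * N) ≤ (N + 1) * (Sg - f v) := by nlinarith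
      exact le_of_mul_le_mul_left e3 (by linarith)
    obtain ⟨B, hB, hBc, hBs⟩ := ih (V.erase v) hcard hstep
    exact ⟨B, hB.trans (erase_subset _ _), hBc, hBs⟩

theorem KS1_count {α : Type} (V : Finset ℕ) (Y : Finset α) (S : ℕ → α → Prop) :
    (((V ×ˢ Y).filter (fun y => S y.1 y.2)).card : ℝ) =
      ∑ v ∈ V, ((Y.filter (fun y => S v y)).card : ℝ) := by
  rw [card_filter, sum_product]
  push_cast
  refine sum_congr rfl fun v _ => ?_
  rw [card_filter]
  push_cast
  rfl

theorem KS1_swap {α : Type} (B : Finset ℕ) (Y : Finset α) (S : ℕ → α → Prop) :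
    ∑ v ∈ B, ((Y.filter (fun y => S v y)).card : ℝ) =
      ∑ y ∈ Y, ((B.filter (fun v => S v y)).card : ℝ) := by
  have h1 : ∀ v ∈ B, ((Y.filter (fun y => S v y)).card : ℝ) =
      ∑ y ∈ Y, if S v y then (1 : ℝ) else 0 := by
    intro v _
    rw [card_filter]
    push_cast
    rfl
  have h2 : ∀ y ∈ Y, ((B.filter (fun v => S v y)).card : ℝ) =
      ∑ v ∈ B, if S v y then (1 : ℝ) else 0 := by
    intro y _
    rw [card_filter]
    push_cast
    rfl
  rw [sum_congr rfl h1, sum_congr rfl h2, sum_comm]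

theorem prf_KS1 : D_KS1 := by
  intro κ c hc
  obtain ⟨m, hm⟩ := exists_nat_ge (2 * κ / c + 1)
  have hm1 : (1 : ℝ) ≤ m := by
    have : 0 ≤ 2 * (κ : ℝ) / c := by positivity
    linarith
  have hκ : (κ : ℝ) ≤ c * m / 2 := by
    have h1 : 2 * (κ : ℝ) / c ≤ m := by linarith
    rw [div_le_iff₀ hc] at h1
    linarith
  refine ⟨m, c / (4 * 2 ^ m), by positivity, ?_⟩
  intro V α Y S hV hY h
  rw [KS1_count] at h
  set f : ℕ → ℝ := fun v => ((Y.filter (fun y => S v y)).card : ℝ) with hf
  have hYr : (0 : ℝ) < Y.card := by exact_mod_cast hY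
  obtain ⟨B, hBV, hBc, hBs⟩ := KS1_avg f (c * Y.card) m (V.card - m) V (by omega) (by
    calc c * Y.card * V.card = c * (V.card * Y.card) := by ring
      _ ≤ _ := h)
  have hswap : ∑ v ∈ B, f v = ∑ y ∈ Y, ((B.filter (fun v => S v y)).card : ℝ) := KS1_swap B Y S
  set Y' := Y.filter (fun y => κ ≤ (B.filter (fun v => S v y)).card) with hY'
  -- the upper bound of the sum
  have hub : ∑ y ∈ Y, ((B.filter (fun v => S v y)).card : ℝ) ≤ Y'.card * m + Y.card * κ := by
    have h1 : ∀ y ∈ Y, ((B.filter (fun v => S v y)).card : ℝ) ≤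
        (if κ ≤ (B.filter (fun v => S v y)).card then (m : ℝ) else 0) + κ := by
      intro y _
      split_ifs with h2
      · have h3 : (B.filter (fun v => S v y)).card ≤ m := by
          rw [← hBc]
          exact card_filter_le _ _
        have h4 : ((B.filter (fun v => S v y)).card : ℝ) ≤ m := by exact_mod_cast h3
        have h5 : (0 : ℝ) ≤ κ := Nat.cast_nonneg _
        linarith
      · have h3 : (B.filter (fun v => S v y)).card ≤ κ := by omega
        have h4 : ((B.filter (fun v => S v y)).card : ℝ) ≤ κ := by exact_mod_cast h3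
        linarith
    refine (sum_le_sum h1).trans (le_of_eq ?_)
    rw [sum_add_distrib, sum_const, nsmul_eq_mul, ← sum_filter, sum_const, nsmul_eq_mul, hY']
  have hY'big : c / 2 * Y.card ≤ Y'.card := by
    rw [hswap] at hBs
    have h1 : c * Y.card * m ≤ Y'.card * m + Y.card * κ := hBs.trans hub
    have h2 : (Y.card : ℝ) * κ ≤ Y.card * (c * m / 2) := mul_le_mul_of_nonneg_left hκ hYr.le
    have h3 : c / 2 * Y.card * m ≤ Y'.card * m := by nlinarith
    exact le_of_mul_le_mul_right h3 (by linarith)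
  by_contra hcon
  push Not at hcon
  have hsub : Y' ⊆ (powersetCard κ B).biUnion (fun A => Y.filter (fun y => ∀ a ∈ A, S a y)) := by
    intro y hy
    rw [hY', mem_filter] at hy
    obtain ⟨A, hA, hAc⟩ := exists_subset_card_eq hy.2
    rw [mem_biUnion]
    refine ⟨A, mem_powersetCard.mpr ⟨hA.trans (filter_subset _ _), hAc⟩, ?_⟩
    rw [mem_filter]
    exact ⟨hy.1, fun a ha => (mem_filter.mp (hA ha)).2⟩
  have hcard : (Y'.card : ℝ) ≤ ∑ A ∈ powersetCard κ B,
      ((Y.filter (fun y => ∀ a ∈ A, S a y)).card : ℝ) := by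
    have h1 := (card_le_card hsub).trans card_biUnion_le
    exact_mod_cast h1
  have hle : ∑ A ∈ powersetCard κ B, ((Y.filter (fun y => ∀ a ∈ A, S a y)).card : ℝ) ≤
      ∑ A ∈ powersetCard κ B, c / (4 * 2 ^ m) * (Y.card : ℝ) := by
    refine sum_le_sum fun A hA => ?_
    obtain ⟨hA1, hA2⟩ := mem_powersetCard.mp hA
    exact (hcon A (hA1.trans hBV) hA2).le
  rw [sum_const, nsmul_eq_mul] at hle
  have hpc : ((powersetCard κ B).card : ℝ) ≤ 2 ^ m := by
    have h1 : (powersetCard κ B).card ≤ B.powerset.card :=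
      card_le_card (fun A hA => mem_powerset.mpr (mem_powersetCard.mp hA).1)
    rw [card_powerset, hBc] at h1
    exact_mod_cast h1
  have h2m : (0 : ℝ) < 2 ^ m := by positivity
  have h5 : ((powersetCard κ B).card : ℝ) * (c / (4 * 2 ^ m) * Y.card) ≤
      2 ^ m * (c / (4 * 2 ^ m) * Y.card) := mul_le_mul_of_nonneg_right hpc (by positivity)
  have h6 : (2 : ℝ) ^ m * (c / (4 * 2 ^ m) * Y.card) = c / 4 * Y.card := by
    field_simp
  have h7 : 0 < c * Y.card := mul_pos hc hYr
  linarith

end MPb51559.DP
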