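import Pool.Agent.Work.MP_b51559_nt.DP.Stmts
import Pool.Agent.Work.MP_b51559_nt.DN.PER

set_option autoImplicit false

/-!
# Block DP, item MEAN: the mean of the excess of the weight
-/

namespace MPb51559.DP

open Finset
open scoped Classical

theorem MEAN_per (z n : ℕ) : wz z (n + primorial z) = wz z n := by
  unfold wz
  refine Finset.prod_congr rfl fun p hp => ?_
  have h1 : p ∣ primorial z := Finset.dvd_prod_of_mem (fun p : ℕ => p) hp
  unfold DN.wl
  have h2 : p ∣ n + primorial z ↔ p ∣ n := (Nat.dvd_add_iff_left h1).symm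
  by_cases h : p ∣ n
  · rw [if_pos h, if_pos (h2.2 h)]
  · rw [if_neg h, if_neg (fun h' => h (h2.1 h'))]

theorem MEAN_dvd {m n : ℕ} (h : m ≤ n) : primorial m ∣ primorial n := by
  refine Finset.prod_dvd_prod_of_subset _ _ _ ?_
  intro p hp
  rw [Finset.mem_filter, Finset.mem_range] at hp ⊢
  exact ⟨by omega, hp.2⟩

theorem prf_MEAN (h1 : D_WB) (h2 : D_E47) (h3 : D_TAIL) (h4 : D_MU) (h5 : D_TRZ) : D_MEAN := by
  intro z hz N
  obtain ⟨hd, -, hw⟩ := h1 z
  have hQ0 : 0 < primorial z := primorial_pos z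
  have hQ : (0 : ℝ) < (primorial z : ℝ) := by exact_mod_cast hQ0
  have hF0 : ∀ n, 0 ≤ max (wz z n - 57 / 20) 0 := fun n => le_max_right _ _
  have hFd : ∀ n, max (wz z n - 57 / 20) 0 ≤ 1 / dz z := by
    intro n
    have h6 : wz z n ≤ 1 / dz z := by
      rw [le_div_iff₀ hd]
      linarith [(hw n).2]
    have h7 : 0 ≤ 1 / dz z := by positivity
    exact max_le (by linarith) h7
  have hFp : ∀ n, max (wz z (n + primorial z) - 57 / 20) 0 = max (wz z n - 57 / 20) 0 := by
    intro n
    rw [MEAN_per]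
  have hP := DN.prf_PER (primorial z) hQ0 (fun n => max (wz z n - 57 / 20) 0) hF0 hFp N
  have hS1 : ∑ n ∈ range (primorial z), max (wz z n - 57 / 20) 0 ≤ primorial z / dz z := by
    have h6 := Finset.sum_le_card_nsmul (range (primorial z))
      (fun n => max (wz z n - 57 / 20) 0) (1 / dz z) fun n _ => hFd n
    rw [Finset.card_range, nsmul_eq_mul, mul_one_div] at h6
    exact h6
  have hS2 : ∑ n ∈ range (primorial z), max (wz z n - 57 / 20) 0 ≤
      primorial z * (4072 / 100000 + 48 / 10000) := by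
    obtain ⟨m, hm⟩ := MEAN_dvd hz
    have h6 : ∑ n ∈ range (primorial z), max (wz z n - 57 / 20) 0 ≤
        ∑ n ∈ range (primorial z), max (wz 47 n - 57 / 20) 0 +
          ∑ n ∈ range (primorial z), wz 47 n * ((∏ p ∈ pt z, ul p n) - 1) := by
      rw [← Finset.sum_add_distrib]
      exact Finset.sum_le_sum fun n _ => h5 z hz n (57 / 20)
    have h7 : ∑ n ∈ range (primorial z), max (wz 47 n - 57 / 20) 0 =
        m * ∑ n ∈ range (primorial 47), max (wz 47 n - 57 / 20) 0 := by
      rw [hm, mul_comm (primorial 47) m]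
      exact DN.PER_blocks (primorial 47) (fun n => max (wz 47 n - 57 / 20) 0)
        (fun n => by rw [MEAN_per]) m
    have h8 : (m : ℝ) * ∑ n ∈ range (primorial 47), max (wz 47 n - 57 / 20) 0 ≤
        4072 / 100000 * primorial z := by
      refine (mul_le_mul_of_nonneg_left h2 (Nat.cast_nonneg m)).trans (le_of_eq ?_)
      rw [hm, Nat.cast_mul]
      ring
    have h9 : (primorial z : ℝ) * ((∏ p ∈ pt z, (1 + 1 / ((p : ℝ) * (p - 2)))) - 1) ≤
        primorial z * (48 / 10000) :=
      mul_le_mul_of_nonneg_left (by linarith [h3 z]) hQ.le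
    rw [h4 z hz, h7] at h6
    linarith
  have hP2 := (abs_le.1 hP).2
  have h6 : (N : ℝ) / primorial z * ∑ n ∈ range (primorial z), max (wz z n - 57 / 20) 0 ≤
      N * (4072 / 100000 + 48 / 10000) := by
    refine (mul_le_mul_of_nonneg_left hS2 (by positivity)).trans (le_of_eq ?_)
    field_simp
  linarith

end MPb51559.DP
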