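import Pool.Agent.Work.MP_b51559_nt.DP.Stmts
import Pool.Agent.Work.MP_b51559_nt.DN.CRT

set_option autoImplicit false

/-!
# Block DP: item MU (the mean of the weight times the tail)
-/

namespace MPb51559.DP

open Finset
open scoped Classical

lemma MU_wl_per (p n : ℕ) : DN.wl p (n + p) = DN.wl p n := by
  unfold DN.wl
  have h : (p ∣ n + p) ↔ p ∣ n := by simp
  simp only [h]

lemma MU_ul_per (p n : ℕ) : ul p (n + p) = ul p n := by
  unfold ul
  have h : (p ∣ n + p) ↔ p ∣ n := by simp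
  simp only [h]

lemma MU_sum_wl (p : ℕ) (hp : 2 ≤ p) : ∑ n ∈ range p, DN.wl p n = p := by
  obtain ⟨q, rfl⟩ : ∃ q, p = q + 1 := ⟨p - 1, by omega⟩
  rw [Finset.sum_range_succ']
  have h0 : DN.wl (q + 1) 0 = ((q + 1 : ℕ) : ℝ) / (((q + 1 : ℕ) : ℝ) - 1) := by
    unfold DN.wl; rw [if_pos (dvd_zero _)]
  have h1 : ∀ n ∈ range q, DN.wl (q + 1) (n + 1) =
      ((q + 1 : ℕ) : ℝ) * (((q + 1 : ℕ) : ℝ) - 2) / (((q + 1 : ℕ) : ℝ) - 1) ^ 2 := by
    intro n hn
    have hn' := Finset.mem_range.1 hn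
    unfold DN.wl
    rw [if_neg]
    intro h
    have := Nat.le_of_dvd (by omega) h
    omega
  rw [Finset.sum_congr rfl h1, h0, Finset.sum_const, Finset.card_range, nsmul_eq_mul]
  have hq : (q : ℝ) ≠ 0 := by
    have : q ≠ 0 := by omega
    exact_mod_cast this
  push_cast
  have e : ((q : ℝ) + 1 - 1) = q := by ring
  rw [e]
  field_simp
  ring

lemma MU_sum_ul (p : ℕ) (hp : 3 ≤ p) :
    ∑ n ∈ range p, ul p n = (p : ℝ) * (1 + 1 / ((p : ℝ) * (p - 2))) := by
  obtain ⟨q, rfl⟩ : ∃ q, p = q + 3 := ⟨p - 3, by omega⟩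
  rw [show q + 3 = (q + 2) + 1 from rfl, Finset.sum_range_succ']
  have h0 : ul (q + 2 + 1) 0 = (((q + 2 + 1 : ℕ) : ℝ) - 1) / (((q + 2 + 1 : ℕ) : ℝ) - 2) := by
    unfold ul; rw [if_pos (dvd_zero _)]
  have h1 : ∀ n ∈ range (q + 2), ul (q + 2 + 1) (n + 1) = 1 := by
    intro n hn
    have hn' := Finset.mem_range.1 hn
    unfold ul
    rw [if_neg]
    intro h
    have := Nat.le_of_dvd (by omega) h
    omega
  rw [Finset.sum_congr rfl h1, h0, Finset.sum_const, Finset.card_range, nsmul_eq_mul]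
  have hq1 : ((q : ℝ) + 1) ≠ 0 := by positivity
  have hq3 : ((q : ℝ) + 3) ≠ 0 := by positivity
  push_cast
  have e2 : ((q : ℝ) + 2 + 1 - 2) = q + 1 := by ring
  have e3 : ((q : ℝ) + 2 + 1) = q + 3 := by ring
  rw [e2, e3]
  field_simp
  ring

lemma MU_prime {z p : ℕ} (hp : p ∈ pz z) : p.Prime := by
  unfold pz at hp
  exact (Finset.mem_filter.1 hp).2

lemma MU_filter (z : ℕ) (hz : 47 ≤ z) : (pz z).filter (fun p => ¬ 47 < p) = pz 47 := by
  ext p
  simp only [pz, Finset.mem_filter, Finset.mem_range]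
  constructor
  · rintro ⟨⟨_, h2⟩, h3⟩
    exact ⟨by omega, h2⟩
  · rintro ⟨h1, h2⟩
    exact ⟨⟨by omega, h2⟩, by omega⟩

/-- the main computation, for an arbitrary periodic family beyond 47 -/
lemma MU_key (hC : DN.D_CRT) (z : ℕ) (hz : 47 ≤ z) (g : ℕ → ℕ → ℝ)
    (hg : ∀ p n, g p (n + p) = g p n) (G : ℕ → ℝ)
    (hG : ∀ p, 47 < p → ∑ n ∈ range p, g p n = (p : ℝ) * G p) :
    ∑ n ∈ range (primorial z), wz 47 n * ∏ p ∈ pt z, g p n =
      primorial z * ∏ p ∈ pt z, G p := by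
  have hcrt := hC (pz z) (fun p hp => MU_prime hp)
    (fun p n => if 47 < p then g p n else DN.wl p n) (fun p _ n => by
      by_cases h : 47 < p
      · simp only [if_pos h]; exact hg p n
      · simp only [if_neg h]; exact MU_wl_per p n)
  have h1 : ∀ n, ∏ p ∈ pz z, (if 47 < p then g p n else DN.wl p n) =
      wz 47 n * ∏ p ∈ pt z, g p n := by
    intro n
    rw [Finset.prod_ite, MU_filter z hz, mul_comm]
    rfl
  have h2 : ∀ p ∈ pz z, ∑ n ∈ range p, (if 47 < p then g p n else DN.wl p n) =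
      (p : ℝ) * (if 47 < p then G p else 1) := by
    intro p hp
    by_cases h : 47 < p
    · simp only [if_pos h]; exact hG p h
    · simp only [if_neg h, mul_one]; exact MU_sum_wl p (MU_prime hp).two_le
  have h3 : ∏ p ∈ pz z, (p : ℝ) * (if 47 < p then G p else 1) =
      primorial z * ∏ p ∈ pt z, G p := by
    rw [Finset.prod_mul_distrib, ← Finset.prod_filter, ← Nat.cast_prod, prod_pz]
    rfl
  rw [← h3, ← Finset.prod_congr rfl h2, ← hcrt, prod_pz]
  exact Finset.sum_congr rfl fun n _ => (h1 n).symm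

theorem prf_MU : D_MU := by
  intro z hz
  have hC := DN.prf_CRT
  have h1 := MU_key hC z hz ul MU_ul_per (fun p => 1 + 1 / ((p : ℝ) * (p - 2)))
    (fun p hp => MU_sum_ul p (by omega))
  have h2 := MU_key hC z hz (fun _ _ => 1) (fun _ _ => rfl) (fun _ => 1) (fun p _ => by simp)
  simp only [Finset.prod_const_one, mul_one] at h2
  have h3 : ∑ n ∈ range (primorial z), wz 47 n * ((∏ p ∈ pt z, ul p n) - 1) =
      ∑ n ∈ range (primorial z), wz 47 n * (∏ p ∈ pt z, ul p n) -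
        ∑ n ∈ range (primorial z), wz 47 n := by
    rw [← Finset.sum_sub_distrib]
    exact Finset.sum_congr rfl fun n _ => by ring
  rw [h3, h1, h2]
  ring

end MPb51559.DP
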