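import Pool.Agent.Work.MP_b51559_nt.DP.Stmts

set_option autoImplicit false

/-!
# Block DP: item PAIR
-/

namespace MPb51559.DP

open Finset
open scoped Classical

theorem PAIR_Wz (z : ℕ) (P : Set ℕ) (N : ℕ) : (N : ℝ) * Wz z P N = ∑ h ∈ DN.PP P N, wz z h := by
  unfold Wz
  rcases Nat.eq_zero_or_pos N with h | h
  · subst h
    have : DN.PP P 0 = ∅ := by
      unfold DN.PP
      rw [Icc_eq_empty (by norm_num), filter_empty]
    rw [this]
    simp
  · have : (N : ℝ) ≠ 0 := by exact_mod_cast h.ne'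
    field_simp

theorem PAIR_wz_nonneg (z h : ℕ) : 0 ≤ wz z h := by
  unfold wz
  refine prod_nonneg fun p hp => ?_
  have hp2 : 2 ≤ p := by
    unfold pz at hp
    exact (mem_filter.1 hp).2.two_le
  have hp2' : (2 : ℝ) ≤ p := by exact_mod_cast hp2
  unfold DN.wl
  split_ifs
  · exact div_nonneg (by linarith) (by linarith)
  · exact div_nonneg (mul_nonneg (by linarith) (by linarith)) (sq_nonneg _)

theorem PAIR_card (z : ℕ) (P : Set ℕ) (L M K N : ℕ) (hMK : M ≤ K) :
    ((Bz z L M ×ˢ Bz z K N).filter (fun y => y.2 - y.1 ∈ P)).card ≤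
      ∑ h ∈ DN.PP P N, ((Bz z L M).filter (fun x => (x + h).Coprime (primorial z))).card := by
  have hsub : (Bz z L M ×ˢ Bz z K N).filter (fun y => y.2 - y.1 ∈ P) ⊆
      (DN.PP P N).biUnion fun h => ((Bz z L M).filter
        (fun x => (x + h).Coprime (primorial z))).image (fun x => (x, x + h)) := by
    rintro ⟨x, y⟩ hz
    rw [mem_filter, mem_product] at hz
    obtain ⟨⟨hx, hy⟩, hr⟩ := hz
    simp only at hx hy hr
    have hx' := hx
    unfold Bz at hx' hy
    rw [mem_filter, mem_Ioc] at hx' hy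
    obtain ⟨⟨hx1, hx2⟩, hx3⟩ := hx'
    obtain ⟨⟨hy1, hy2⟩, hy3⟩ := hy
    have hxy : x < y := by omega
    rw [mem_biUnion]
    refine ⟨y - x, ?_, ?_⟩
    · unfold DN.PP
      rw [mem_filter, mem_Icc]
      exact ⟨by omega, hr⟩
    · rw [mem_image]
      refine ⟨x, ?_, ?_⟩
      · rw [mem_filter]
        refine ⟨hx, ?_⟩
        rw [Nat.add_sub_cancel' hxy.le]
        exact hy3
      · rw [Nat.add_sub_cancel' hxy.le]
  exact (card_le_card hsub).trans (card_biUnion_le.trans (sum_le_sum fun h _ => card_image_le))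

theorem prf_PAIR (h1 : D_C2) : D_PAIR := by
  intro z P L M K N hLM hMK _
  have e1 : (((Bz z L M ×ˢ Bz z K N).filter (fun y => y.2 - y.1 ∈ P)).card : ℝ) ≤
      ∑ h ∈ DN.PP P N, (((Bz z L M).filter
        (fun x => (x + h).Coprime (primorial z))).card : ℝ) := by
    exact_mod_cast PAIR_card z P L M K N hMK
  have e2 : ∑ h ∈ DN.PP P N, (((Bz z L M).filter
        (fun x => (x + h).Coprime (primorial z))).card : ℝ) ≤
      ∑ h ∈ DN.PP P N, (dz z ^ 2 * wz z h * M + 2 * primorial z) := by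
    refine sum_le_sum fun h _ => (h1 z h L M hLM).trans ?_
    have h2 : 0 ≤ dz z ^ 2 * wz z h * L :=
      mul_nonneg (mul_nonneg (sq_nonneg _) (PAIR_wz_nonneg z h)) (Nat.cast_nonneg _)
    linarith
  have e3 : ∑ h ∈ DN.PP P N, (dz z ^ 2 * wz z h * M + 2 * (primorial z : ℝ)) =
      dz z ^ 2 * M * N * Wz z P N + (DN.PP P N).card * (2 * primorial z) := by
    rw [sum_add_distrib, sum_const, nsmul_eq_mul, mul_assoc (dz z ^ 2 * (M : ℝ)) (N : ℝ),
      PAIR_Wz, mul_sum]
    congr 1
    refine sum_congr rfl fun h _ => ?_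
    ring
  have e4 : ((DN.PP P N).card : ℝ) ≤ N := by
    have : (DN.PP P N).card ≤ (Icc 1 N).card := card_le_card (filter_subset _ _)
    rw [Nat.card_Icc] at this
    have h5 : (DN.PP P N).card ≤ N := by omega
    exact_mod_cast h5
  have e5 : ((DN.PP P N).card : ℝ) * (2 * primorial z) ≤ 2 * primorial z * N := by
    rw [mul_comm]
    exact mul_le_mul_of_nonneg_left e4 (by positivity)
  linarith

end MPb51559.DP
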