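import Pool.Agent.Work.MP_b51559_nt.DP.Stmts

set_option autoImplicit false

/-!
# Block DP, item PRO: the pairs as a probability
-/

namespace MPb51559.DP

open Finset
open scoped Classical

theorem PRO_Wz (h3 : D_WB) (z : ℕ) (P : Set ℕ) (N : ℕ) (hN : 0 < N) :
    0 ≤ Wz z P N ∧ Wz z P N ≤ 1 / dz z := by
  obtain ⟨hd, -, hw⟩ := h3 z
  have hN' : (0 : ℝ) < N := by exact_mod_cast hN
  unfold Wz
  constructor
  · exact div_nonneg (Finset.sum_nonneg fun h _ => (hw h).1) hN'.le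
  · rw [div_le_iff₀ hN']
    have h4 : ∑ h ∈ DN.PP P N, wz z h ≤ (DN.PP P N).card • (1 / dz z) := by
      refine Finset.sum_le_card_nsmul _ _ _ fun h _ => ?_
      rw [le_div_iff₀ hd]
      linarith [(hw h).2]
    have h5 : (DN.PP P N).card ≤ N := by
      have h6 := Finset.card_filter_le (Icc 1 N) (fun h => h ∈ P)
      rw [Nat.card_Icc] at h6
      unfold DN.PP
      omega
    have h6 : ((DN.PP P N).card : ℝ) ≤ N := by exact_mod_cast h5
    rw [nsmul_eq_mul] at h4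
    have h7 : 0 ≤ 1 / dz z := by positivity
    refine h4.trans ?_
    rw [mul_comm (1 / dz z)]
    exact mul_le_mul_of_nonneg_right h6 h7

theorem PRO_card (h2 : D_CB) (z L M : ℕ) (θ : ℝ) (hLM : L ≤ M) (hd : 0 < dz z)
    (hL : (L : ℝ) ≤ θ / 2 * M) (hQ : 2 * (primorial z : ℝ) ≤ θ / 2 * dz z * M) :
    (1 - θ) * dz z * M ≤ ((Bz z L M).card : ℝ) := by
  have h := (abs_le.1 (h2 z L M hLM)).1
  have h4 : dz z * (L : ℝ) ≤ dz z * (θ / 2 * M) := mul_le_mul_of_nonneg_left hL hd.le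
  nlinarith

theorem prf_PRO (h1 : D_PAIR) (h2 : D_CB) (h3 : D_WB) : D_PRO := by
  intro z η₀ hη₀ n0
  obtain ⟨η, hη, hη1, hηη⟩ : ∃ η : ℝ, 0 < η ∧ η ≤ 1 ∧ η ≤ η₀ :=
    ⟨min η₀ 1, lt_min hη₀ one_pos, min_le_right _ _, min_le_left _ _⟩
  obtain ⟨hd, hd1, -⟩ := h3 z
  set d := dz z with hdd
  have hB1 : 1 ≤ 1 / d := by rw [le_div_iff₀ hd]; linarith
  obtain ⟨θ, hθ, hθ1, hθB⟩ : ∃ θ : ℝ, 0 < θ ∧ θ ≤ 1 / 8 ∧ θ * (1 / d + 1) = η / 8 := by
    refine ⟨η / (8 * (1 / d + 1)), by positivity, ?_, ?_⟩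
    · rw [div_le_div_iff₀ (by positivity) (by norm_num)]
      nlinarith
    · have : 1 / d + 1 ≠ 0 := by positivity
      field_simp
  have hQ : (0 : ℝ) ≤ (primorial z : ℝ) := Nat.cast_nonneg _
  have hθd : 0 < θ / 2 * d := by positivity
  have hηd : 0 < η / 2 * d ^ 2 := by positivity
  have hnd : 0 < (1 - θ) * d := mul_pos (by linarith) hd
  obtain ⟨A1, hA1⟩ := exists_nat_ge (2 * (primorial z : ℝ) / (θ / 2 * d))
  obtain ⟨A2, hA2⟩ := exists_nat_ge (2 * (primorial z : ℝ) / (η / 2 * d ^ 2))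
  obtain ⟨A3, hA3⟩ := exists_nat_ge ((n0 : ℝ) / ((1 - θ) * d))
  obtain ⟨C, hC⟩ := exists_nat_ge (2 / θ)
  have hC1 : 1 ≤ C := by
    have : (1 : ℝ) ≤ C := by
      refine le_trans ?_ hC
      rw [le_div_iff₀ hθ]
      linarith
    exact_mod_cast this
  refine ⟨A1 + A2 + A3 + 1, C, fun P L M K N hM hL hMK hK => ?_⟩
  have hA1' : (0 : ℝ) ≤ A1 := Nat.cast_nonneg _
  have hA2' : (0 : ℝ) ≤ A2 := Nat.cast_nonneg _
  have hA3' : (0 : ℝ) ≤ A3 := Nat.cast_nonneg _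
  have hMr : (A1 : ℝ) + A2 + A3 + 1 ≤ M := by exact_mod_cast hM
  have hLM : L ≤ M := (Nat.le_mul_of_pos_left L hC1).trans hL
  have hKN : K ≤ N := (Nat.le_mul_of_pos_left K hC1).trans hK
  have hMN : M ≤ N := hMK.trans hKN
  have hMN' : (M : ℝ) ≤ N := by exact_mod_cast hMN
  have hM1 : (1 : ℝ) ≤ M := by linarith
  have hN1 : (1 : ℝ) ≤ N := hM1.trans hMN'
  have hNpos : 0 < N := by
    have : (0 : ℝ) < N := by linarith
    exact_mod_cast this
  have hsm : ∀ a b : ℕ, C * a ≤ b → (a : ℝ) ≤ θ / 2 * b := by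
    intro a b hab
    have h4 : (C : ℝ) * a ≤ b := by exact_mod_cast hab
    have h5 : 2 / θ * a ≤ b := (mul_le_mul_of_nonneg_right hC (Nat.cast_nonneg a)).trans h4
    have h6 : θ / 2 * (2 / θ * a) = a := by
      field_simp
    calc (a : ℝ) = θ / 2 * (2 / θ * a) := h6.symm
      _ ≤ θ / 2 * b := mul_le_mul_of_nonneg_left h5 (by positivity)
  have q1 : 2 * (primorial z : ℝ) ≤ θ / 2 * d * M := by
    rw [div_le_iff₀ hθd] at hA1
    refine hA1.trans ?_
    rw [mul_comm (A1 : ℝ)]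
    exact mul_le_mul_of_nonneg_left (by linarith) hθd.le
  have q2 : 2 * (primorial z : ℝ) ≤ θ / 2 * d * N :=
    q1.trans (mul_le_mul_of_nonneg_left hMN' hθd.le)
  have q3 : 2 * (primorial z : ℝ) ≤ η / 2 * d ^ 2 * M := by
    rw [div_le_iff₀ hηd] at hA2
    refine hA2.trans ?_
    rw [mul_comm (A2 : ℝ)]
    exact mul_le_mul_of_nonneg_left (by linarith) hηd.le
  have q4 : (n0 : ℝ) ≤ (1 - θ) * d * M := by
    rw [div_le_iff₀ hnd] at hA3
    refine hA3.trans ?_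
    rw [mul_comm (A3 : ℝ)]
    exact mul_le_mul_of_nonneg_left (by linarith) hnd.le
  have ca : (1 - θ) * d * M ≤ ((Bz z L M).card : ℝ) := PRO_card h2 z L M θ hLM hd (hsm _ _ hL) q1
  have cb : (1 - θ) * d * N ≤ ((Bz z K N).card : ℝ) := PRO_card h2 z K N θ hKN hd (hsm _ _ hK) q2
  have pa : 0 < (1 - θ) * d * M := mul_pos hnd (by linarith)
  have pb : 0 < (1 - θ) * d * N := mul_pos hnd (by linarith)
  obtain ⟨w0, w8⟩ := PRO_Wz h3 z P N hNpos
  refine ⟨?_, ?_, ?_⟩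
  · exact_mod_cast q4.trans ca
  · have h4 : (n0 : ℝ) ≤ ((Bz z K N).card : ℝ) :=
      (q4.trans (mul_le_mul_of_nonneg_left hMN' hnd.le)).trans cb
    exact_mod_cast h4
  · refine (h1 z P L M K N hLM hMK hKN).trans ?_
    set W := Wz z P N with hW
    set S : ℝ := d ^ 2 * M * N with hS
    have hS0 : 0 ≤ S := by positivity
    have e1 : 2 * (primorial z : ℝ) * N ≤ η / 2 * S := by
      have := mul_le_mul_of_nonneg_right q3 (by linarith : (0 : ℝ) ≤ N)
      rw [hS]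
      linarith
    have e3 : ((1 - θ) * d * M) * ((1 - θ) * d * N) ≤
        ((Bz z L M).card : ℝ) * (Bz z K N).card := mul_le_mul ca cb pb.le (pa.le.trans ca)
    have e4 : (1 - θ) ^ 2 * S ≤ ((Bz z L M).card : ℝ) * (Bz z K N).card := by
      refine le_trans (le_of_eq ?_) e3
      rw [hS]
      ring
    have e5 : (W + η / 2) ≤ (W + η) * (1 - θ) ^ 2 := by
      have f1 : θ * (W + η) ≤ η / 8 := by
        rw [← hθB]
        exact mul_le_mul_of_nonneg_left (by linarith) hθ.le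
      have f2 : (W + η) * (1 - θ) ^ 2 = (W + η) - 2 * (θ * (W + η)) + (W + η) * θ ^ 2 := by ring
      have f3 : 0 ≤ (W + η) * θ ^ 2 := by positivity
      linarith
    have e6 : (W + η / 2) * S ≤ (W + η) * (((Bz z L M).card : ℝ) * (Bz z K N).card) := by
      calc (W + η / 2) * S ≤ (W + η) * (1 - θ) ^ 2 * S :=
            mul_le_mul_of_nonneg_right e5 hS0
        _ = (W + η) * ((1 - θ) ^ 2 * S) := by ring
        _ ≤ _ := mul_le_mul_of_nonneg_left e4 (by linarith)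
    have e7 : (W + η) * (((Bz z L M).card : ℝ) * (Bz z K N).card) ≤
        (W + η₀) * (((Bz z L M).card : ℝ) * (Bz z K N).card) :=
      mul_le_mul_of_nonneg_right (by linarith) (by positivity)
    refine le_trans ?_ (e6.trans e7)
    have e8 : d ^ 2 * (M : ℝ) * N * W = W * S := by
      rw [hS]
      ring
    rw [e8]
    linarith

end MPb51559.DP
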