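import Pool.Agent.Work.MP_b51559_nt.DP.Stmts

set_option autoImplicit false

/-!
# Block DP: item RCK (from the real sum over patterns to the integer one)
-/

namespace MPb51559.DP

open Finset
open scoped Classical

theorem prf_RCK : D_RCK := by
  intro τ E c hE hc l
  have hE0 : E ≠ 0 := hE.ne'
  induction l with
  | nil =>
    intro _ u V
    simp only [rc, rk, List.map_nil, List.prod_nil, mul_one]
    rcases le_or_gt c V with h | h
    · have h1 : (V : ℝ) / E - τ = ((V : ℝ) - c) / E := by
        rw [hc]; field_simp
      have h2 : 0 ≤ ((V : ℝ) - c) / E := by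
        have : (c : ℝ) ≤ V := by exact_mod_cast h
        exact div_nonneg (by linarith) hE.le
      rw [h1, max_eq_left h2]
      push_cast [Nat.cast_sub h]
      ring
    · have h1 : (V : ℝ) / E - τ ≤ 0 := by
        have h2 : (V : ℝ) ≤ c := by exact_mod_cast h.le
        have h3 : (V : ℝ) / E ≤ c / E := div_le_div_of_nonneg_right h2 hE.le
        have h4 : (c : ℝ) / E = τ := by rw [hc]; field_simp
        linarith
      rw [max_eq_right h1, Nat.sub_eq_zero_of_le h.le]
      simp
  | cons p l ih =>
    intro hl u V
    have hp : 2 ≤ p := hl p List.mem_cons_self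
    have ih' := ih (fun q hq => hl q (List.mem_cons_of_mem p hq))
    have hp0 : (p : ℝ) ≠ 0 := by
      have : p ≠ 0 := by omega
      exact_mod_cast this
    have hp1 : ((p : ℝ) - 1) ≠ 0 := by
      have : (2 : ℝ) ≤ p := by exact_mod_cast hp
      intro h
      linarith
    have c1 : ((p - 1 : ℕ) : ℝ) = (p : ℝ) - 1 := by
      rw [Nat.cast_sub (by omega)]; simp
    have c2 : ((p - 2 : ℕ) : ℝ) = (p : ℝ) - 2 := by
      rw [Nat.cast_sub hp]; simp
    simp only [rc, rk, List.map_cons, List.prod_cons]
    have e1 := ih' u (V * (p - 1))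
    have e2 := ih' (u * (p - 1)) (V * (p - 2))
    rw [Nat.cast_add, add_div, ← e1, ← e2]
    congr 1
    · congr 1
      rw [Nat.cast_mul, c1]
      field_simp
    · rw [Nat.cast_mul, Nat.cast_mul, c1, c2]
      congr 1
      field_simp

end MPb51559.DP
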