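import Pool.Agent.Work.MP_b51559_nt.DP.Stmts
import Pool.Agent.Work.MP_b51559_nt.DN.CRT

set_option autoImplicit false

/-!
# Item REC: the sum over a period is the sum over the divisibility patterns
-/

namespace MPb51559.DP

open Finset
open scoped Classical

lemma REC_wl_per (q n M : ℕ) (h : q ∣ M) : DN.wl q (n + M) = DN.wl q n := by
  unfold DN.wl
  simp only [Nat.dvd_add_left h]

lemma REC_prod_per (l : List ℕ) (M : ℕ) (h : ∀ q ∈ l, q ∣ M) (n : ℕ) :
    (l.map (fun p => DN.wl p (n + M))).prod = (l.map (fun p => DN.wl p n)).prod := by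
  congr 1
  apply List.map_congr_left
  intro q hq
  exact REC_wl_per q n M (h q hq)

lemma REC_one (p : ℕ) (hp : 0 < p) :
    ∑ n ∈ range p, (if p ∣ n then (1 : ℝ) else 0) = 1 := by
  rw [sum_eq_single 0]
  · simp
  · intro b hb hb0
    rw [if_neg]
    intro hd
    exact absurd (Nat.le_of_dvd (Nat.pos_of_ne_zero hb0) hd) (not_le.2 (mem_range.1 hb))
  · intro h
    exact absurd (mem_range.2 hp) h

lemma REC_two (p : ℕ) (hp : 0 < p) :
    ∑ n ∈ range p, (if p ∣ n then (0 : ℝ) else 1) = (p : ℝ) - 1 := by
  have h1 : ∀ n, (if p ∣ n then (0 : ℝ) else 1) = 1 - (if p ∣ n then (1 : ℝ) else 0) := by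
    intro n
    split_ifs <;> simp
  simp only [h1]
  rw [sum_sub_distrib, REC_one p hp]
  simp

theorem prf_REC : D_REC := by
  intro g l
  induction l with
  | nil =>
    intro _ _ u v
    simp [rc]
  | cons p l ih =>
    intro hnd hpr u v
    have hp := hpr p List.mem_cons_self
    have hl : ∀ q ∈ l, q.Prime := fun q hq => hpr q (List.mem_cons_of_mem p hq)
    obtain ⟨hpl, hndl⟩ := List.nodup_cons.1 hnd
    have hcop : Nat.Coprime p l.prod := by
      rw [hp.coprime_iff_not_dvd]
      intro hd
      obtain ⟨a, ha, hda⟩ := (Prime.dvd_prod_iff hp.prime).1 hd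
      have : p = a := (Nat.prime_dvd_prime_iff_eq hp (hl a ha)).1 hda
      exact hpl (this ▸ ha)
    have hM : 0 < l.prod := List.prod_pos fun q hq => (hl q hq).pos
    have hdv : ∀ q ∈ l, q ∣ l.prod := fun q hq => List.dvd_prod hq
    set α : ℝ := (p : ℝ) / (p - 1) with hα
    set β : ℝ := (p : ℝ) * (p - 2) / (p - 1) ^ 2 with hβ
    have hsplit : ∀ n, g (v * ((p :: l).map (fun p => DN.wl p n)).prod) =
        (if p ∣ n then (1 : ℝ) else 0) * g (v * α * (l.map (fun p => DN.wl p n)).prod) +
        (if p ∣ n then (0 : ℝ) else 1) * g (v * β * (l.map (fun p => DN.wl p n)).prod) := by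
      intro n
      rw [List.map_cons, List.prod_cons]
      by_cases h : p ∣ n
      · rw [if_pos h, if_pos h, one_mul, zero_mul, add_zero]
        have : DN.wl p n = α := by
          unfold DN.wl
          rw [if_pos h]
        rw [this, mul_assoc]
      · rw [if_neg h, if_neg h, one_mul, zero_mul, zero_add]
        have : DN.wl p n = β := by
          unfold DN.wl
          rw [if_neg h]
        rw [this, mul_assoc]
    have hper : ∀ (c : ℝ) (n : ℕ), g (v * c * (l.map (fun p => DN.wl p (n + l.prod))).prod) =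
        g (v * c * (l.map (fun p => DN.wl p n)).prod) := by
      intro c n
      rw [REC_prod_per l l.prod hdv n]
    have hI1 : ∀ n, (if p ∣ n + p then (1 : ℝ) else 0) = if p ∣ n then (1 : ℝ) else 0 := by
      intro n
      simp
    have hI2 : ∀ n, (if p ∣ n + p then (0 : ℝ) else 1) = if p ∣ n then (0 : ℝ) else 1 := by
      intro n
      simp
    rw [List.prod_cons]
    simp only [hsplit]
    rw [sum_add_distrib, DN.CRT_mul hp.pos hM hcop hI1 (hper α), DN.CRT_mul hp.pos hM hcop hI2 (hper β),
      REC_one p hp.pos, REC_two p hp.pos, one_mul]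
    rw [rc, ← ih hndl hl, ← ih hndl hl]
    ring

end MPb51559.DP
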