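import Pool.Agent.Work.MP_b51559_nt.DP.Stmts

set_option autoImplicit false

/-!
# Block DP, item SEP: the main lemma
-/

namespace MPb51559.DP

open Finset
open scoped Classical

/-- the previous scale -/
noncomputable def SEP_L {r : ℕ} (N : Fin r → ℕ) (j : Fin r) : ℕ :=
  if _h : j.val = 0 then 0 else N ⟨j.val - 1, lt_of_le_of_lt (Nat.sub_le _ _) j.isLt⟩

theorem SEP_CL {r C : ℕ} {N : Fin r → ℕ} (hC : ∀ i j, i < j → C * N i ≤ N j) (j : Fin r) :
    C * SEP_L N j ≤ N j := by
  unfold SEP_L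
  split_ifs with h
  · rw [mul_zero]
    exact Nat.zero_le _
  · exact hC _ _ (by rw [Fin.lt_def]; show j.val - 1 < j.val; omega)

theorem SEP_LN {r C : ℕ} {N : Fin r → ℕ} (hC1 : 1 ≤ C) (hC : ∀ i j, i < j → C * N i ≤ N j)
    {i j : Fin r} (hij : i < j) : N i ≤ SEP_L N j := by
  have h0 : ¬ j.val = 0 := by
    have := Fin.lt_def.1 hij
    omega
  unfold SEP_L
  rw [dif_neg h0]
  by_cases h : i.val = j.val - 1
  · have : i = ⟨j.val - 1, lt_of_le_of_lt (Nat.sub_le _ _) j.isLt⟩ := Fin.ext h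
    rw [← this]
  · refine le_trans ?_ (hC i _ ?_)
    · exact Nat.le_mul_of_pos_left _ hC1
    · rw [Fin.lt_def]
      show i.val < j.val - 1
      have := Fin.lt_def.1 hij
      omega

/-- SEP. -/
theorem prf_SEP (h1 : D_PRO) (h2 : D_SUPR) (h3 : D_KST) : D_SEP := by
  intro κ z η hη
  obtain ⟨r, c, hc, hS⟩ := h2 (η / 2) (by linarith)
  obtain ⟨n0, hK⟩ := h3 5 κ c hc
  obtain ⟨M0, C, hP⟩ := h1 z (η / 2) (by linarith) (max n0 1)
  refine ⟨r, M0, max C 1, fun H P hG N hN hC => ?_⟩
  by_contra hcon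
  push Not at hcon
  have hCL : ∀ j, C * SEP_L N j ≤ N j := fun j =>
    (Nat.mul_le_mul_right _ (le_max_left _ _)).trans (SEP_CL hC j)
  have hLN : ∀ i j, i < j → N i ≤ SEP_L N j := fun i j hij => SEP_LN (le_max_right _ _) hC hij
  have hcard : ∀ j, max n0 1 ≤ (Bz z (SEP_L N j) (N j)).card := fun j =>
    (hP P (SEP_L N j) (N j) (N j) (C * N j) (hN j).1 (hCL j) le_rfl le_rfl).1
  obtain ⟨V, hV⟩ : ∃ V : Fin r → Finset ℕ, ∀ j, V j = Bz z (SEP_L N j) (N j) :=
    ⟨fun j => Bz z (SEP_L N j) (N j), fun _ => rfl⟩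
  obtain ⟨E, hE⟩ : ∃ E : ℕ → ℕ → Prop, ∀ a b, E a b ↔ b - a ∈ P :=
    ⟨fun a b => b - a ∈ P, fun _ _ => Iff.rfl⟩
  have hcV : ∀ j, max n0 1 ≤ (V j).card := fun j => by
    rw [hV]
    exact hcard j
  obtain ⟨i, hi, hiS⟩ := hS V
    (fun j => lt_of_lt_of_le one_pos ((le_max_right _ _).trans (hcV j))) E (fun i j hij => by
      have h4 := (hP P (SEP_L N i) (N i) (SEP_L N j) (N j) (hN i).1 (hCL i) (hLN i j hij)
        (hCL j)).2.2
      rw [← hV, ← hV] at h4
      have h5 : (V i ×ˢ V j).filter (fun y => E y.1 y.2) =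
          (V i ×ˢ V j).filter (fun y => y.2 - y.1 ∈ P) :=
        Finset.filter_congr fun y _ => hE y.1 y.2
      rw [h5]
      refine h4.trans ?_
      refine mul_le_mul_of_nonneg_right ?_ (by positivity)
      have := hcon j
      linarith)
  obtain ⟨A, hA, hAS⟩ := hK (fun l => V (i l)) (fun l => (le_max_left _ _).trans (hcV (i l)))
    (fun y => ∀ a b : Fin 5, a < b → ¬ E (y a) (y b)) (by convert hiS)
  have hmem : ∀ l, ∀ b ∈ A l, (SEP_L N (i l) < b ∧ b ≤ N (i l)) ∧ b.Coprime (primorial z) :=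
    fun l b hb => by
      have h6 : b ∈ V (i l) := (hA l).1 hb
      rw [hV] at h6
      unfold Bz at h6
      rw [mem_filter, mem_Ioc] at h6
      exact h6
  obtain ⟨l, l', hl, a, ha, b, hb, hab⟩ := hG A (fun l => (hA l).2)
    (fun l b hb => ⟨by have := (hmem l b hb).1.1; omega,
      (hmem l b hb).1.2.trans (hN _).2, (hmem l b hb).2⟩)
    (fun l l' hl a ha b hb => by
      have e1 := (hmem l a ha).1.2
      have e2 := (hmem l' b hb).1.1
      have e3 := hLN _ _ (hi hl)
      omega)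
  have hne : ∀ m, (A m).Nonempty := fun m => by
    rw [← card_pos, (hA m).2, ← (hA l).2, card_pos]
    exact ⟨a, ha⟩
  choose f hf using hne
  have hy := hAS (Function.update (Function.update f l a) l' b) (fun m => by
    by_cases h1 : m = l'
    · subst h1
      rw [Function.update_self]
      exact hb
    · rw [Function.update_of_ne h1]
      by_cases h2 : m = l
      · subst h2
        rw [Function.update_self]
        exact ha
      · rw [Function.update_of_ne h2]
        exact hf m) l l' hl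
  rw [Function.update_self, Function.update_of_ne hl.ne, Function.update_self] at hy
  exact hy ((hE a b).2 hab)

end MPb51559.DP
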