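import Pool.Agent.Work.MP_b51559_nt.DP.Stmts
import Pool.Agent.Work.MP_b51559_nt.DN.AVG
import Pool.Agent.Work.MP_b51559_nt.DN.TUR

set_option autoImplicit false

/-!
# Block DP, item SUPR: supersaturation
-/

namespace MPb51559.DP

open Finset
open scoped Classical

/-- the number of related pairs of `x` -/
noncomputable def SUPR_e {r : ℕ} (E : ℕ → ℕ → Prop) (x : Fin r → ℕ) : ℝ :=
  ((univ.filter (fun z : Fin r × Fin r => z.1 < z.2 ∧ E (x z.1) (x z.2))).card : ℝ)

/-- `s` is independent for `x` -/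
def SUPR_I {r : ℕ} (E : ℕ → ℕ → Prop) (x : Fin r → ℕ) (s : Finset (Fin r)) : Prop :=
  ∀ i ∈ s, ∀ j ∈ s, i < j → ¬ E (x i) (x j)

/-- some set of five indices is independent for `x` -/
def SUPR_G {r : ℕ} (E : ℕ → ℕ → Prop) (x : Fin r → ℕ) : Prop :=
  ∃ s ∈ powersetCard 5 (univ : Finset (Fin r)), SUPR_I E x s

theorem SUPR_sum {r : ℕ} (S : Fin r → Finset ℕ) (E : ℕ → ℕ → Prop) (η : ℝ)
    (hE : ∀ i j, i < j → (((S i ×ˢ S j).filter (fun y => E y.1 y.2)).card : ℝ) ≤
      (1 / 4 - η) * ((S i).card * (S j).card)) :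
    ∑ x ∈ Fintype.piFinset S, SUPR_e E x ≤
      ((r : ℝ) ^ 2 / 2 - r / 2) * ((1 / 4 - η) * ((∏ l, (S l).card : ℕ) : ℝ)) := by
  have h2 : ∑ x ∈ Fintype.piFinset S, SUPR_e E x =
      ∑ z ∈ univ.filter (fun z : Fin r × Fin r => z.1 < z.2),
        (((Fintype.piFinset S).filter (fun x => E (x z.1) (x z.2))).card : ℝ) := by
    have e1 : ∀ x : Fin r → ℕ, SUPR_e E x =
        ∑ z ∈ univ.filter (fun z : Fin r × Fin r => z.1 < z.2),
          if E (x z.1) (x z.2) then (1 : ℝ) else 0 := by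
      intro x
      unfold SUPR_e
      rw [Finset.sum_boole, filter_filter]
    rw [Finset.sum_congr rfl (fun x _ => e1 x), Finset.sum_comm]
    exact Finset.sum_congr rfl fun z _ => by rw [Finset.sum_boole]
  have h3 : ∀ z ∈ univ.filter (fun z : Fin r × Fin r => z.1 < z.2),
      (((Fintype.piFinset S).filter (fun x => E (x z.1) (x z.2))).card : ℝ) ≤
      (1 / 4 - η) * ((∏ l, (S l).card : ℕ) : ℝ) := by
    intro z hz
    have hlt : z.1 < z.2 := (mem_filter.1 hz).2
    have hz' : z.1 ≠ z.2 := ne_of_lt hlt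
    rw [DN.AVG_count S hz' E, DN.AVG_prod S hz']
    push_cast
    have h4 := mul_le_mul_of_nonneg_right (hE z.1 z.2 hlt)
      (Nat.cast_nonneg (DN.AVG_K S z.1 z.2) : (0 : ℝ) ≤ _)
    calc _ ≤ _ := h4
      _ = _ := by ring
  rw [h2, ← DN.TUR_lt r]
  calc _ ≤ ∑ _z ∈ univ.filter (fun z : Fin r × Fin r => z.1 < z.2),
        (1 / 4 - η) * ((∏ l, (S l).card : ℕ) : ℝ) := Finset.sum_le_sum h3
    _ = _ := by rw [Finset.sum_const, nsmul_eq_mul]

theorem SUPR_good (h1 : D_TU5) {r : ℕ} (S : Fin r → Finset ℕ) (E : ℕ → ℕ → Prop) (η : ℝ)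
    (hη : 0 < η) (hr : 4 + 10 * η ≤ η * r) (hr2 : (14 : ℝ) ≤ r)
    (hE : ∀ i j, i < j → (((S i ×ˢ S j).filter (fun y => E y.1 y.2)).card : ℝ) ≤
      (1 / 4 - η) * ((S i).card * (S j).card)) :
    η * ((∏ l, (S l).card : ℕ) : ℝ) ≤ (((Fintype.piFinset S).filter
      (fun x => SUPR_G E x)).card : ℝ) := by
  have hsum := SUPR_sum S E η hE
  have hbad : ∀ x ∈ (Fintype.piFinset S).filter (fun x => ¬ SUPR_G E x),
      (r : ℝ) ^ 2 / 8 - r / 2 ≤ SUPR_e E x := by
    intro x hx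
    have hx' : ¬ SUPR_G E x := (mem_filter.1 hx).2
    refine h1 r (fun i j => E (x i) (x j)) fun s hs => ?_
    by_contra hcon
    apply hx'
    refine ⟨s, mem_powersetCard.2 ⟨subset_univ _, hs⟩, fun i hi j hj hij hEij => ?_⟩
    exact hcon ⟨i, hi, j, hj, hij, hEij⟩
  have h2 := card_filter_add_card_filter_not (s := Fintype.piFinset S) (SUPR_G E)
  rw [Fintype.card_piFinset] at h2
  obtain ⟨Q, hQ⟩ : ∃ Q : ℝ, Q = ((∏ l, (S l).card : ℕ) : ℝ) := ⟨_, rfl⟩
  obtain ⟨g, hg⟩ : ∃ g : ℝ, g = (((Fintype.piFinset S).filter (fun x => SUPR_G E x)).card : ℝ) := ⟨_, rfl⟩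
  have h3 : (((Fintype.piFinset S).filter (fun x => ¬ SUPR_G E x)).card : ℝ) = Q - g := by
    rw [hQ, hg, ← h2]
    push_cast
    ring
  have h4 : (Q - g) * ((r : ℝ) ^ 2 / 8 - r / 2) ≤
      ∑ x ∈ Fintype.piFinset S, SUPR_e E x := by
    rw [← h3, ← nsmul_eq_mul, ← Finset.sum_const]
    refine (Finset.sum_le_sum hbad).trans ?_
    refine Finset.sum_le_sum_of_subset_of_nonneg (filter_subset _ _) fun x _ _ => ?_
    exact Nat.cast_nonneg _
  have hQ0 : 0 ≤ Q := by rw [hQ]; exact Nat.cast_nonneg _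
  have hg0 : 0 ≤ g := by rw [hg]; exact Nat.cast_nonneg _
  rw [← hQ] at hsum ⊢
  rw [← hg]
  have h5 : (Q - g) * ((r : ℝ) ^ 2 / 8 - r / 2) ≤
      ((r : ℝ) ^ 2 / 2 - r / 2) * ((1 / 4 - η) * Q) := h4.trans hsum
  have hrpos : (0 : ℝ) < r := by linarith
  have h6 : (r : ℝ) * (Q * (η * ((r : ℝ) - 1) / 2 - 3 / 8)) ≤ r * (g * (r / 8)) := by
    nlinarith [mul_nonneg hg0 hrpos.le]
  have h7 : Q * (η * ((r : ℝ) - 1) / 2 - 3 / 8) ≤ g * (r / 8) := le_of_mul_le_mul_left h6 hrpos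
  have h8 : η * r / 8 ≤ η * ((r : ℝ) - 1) / 2 - 3 / 8 := by nlinarith
  have h9 : Q * (η * r / 8) ≤ g * (r / 8) := (mul_le_mul_of_nonneg_left h8 hQ0).trans h7
  have h10 : (r / 8 : ℝ) * (η * Q) ≤ (r / 8) * g := by
    calc (r / 8 : ℝ) * (η * Q) = Q * (η * r / 8) := by ring
      _ ≤ g * (r / 8) := h9
      _ = _ := by ring
  exact le_of_mul_le_mul_left h10 (by positivity)

theorem SUPR_pig {r : ℕ} (S : Fin r → Finset ℕ) (E : ℕ → ℕ → Prop) (A : ℝ) (hA : 0 ≤ A)
    (hr : 5 ≤ r) (h : A ≤ (((Fintype.piFinset S).filter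
      (fun x => SUPR_G E x)).card : ℝ)) :
    ∃ s : Finset (Fin r), s.card = 5 ∧
      A / (r : ℝ) ^ 5 ≤ (((Fintype.piFinset S).filter (fun x => SUPR_I E x s)).card : ℝ) := by
  have hne : (powersetCard 5 (univ : Finset (Fin r))).Nonempty := by
    rw [powersetCard_nonempty, card_univ, Fintype.card_fin]
    exact hr
  have hcard : ((powersetCard 5 (univ : Finset (Fin r))).card : ℝ) ≤ (r : ℝ) ^ 5 := by
    rw [card_powersetCard, card_univ, Fintype.card_fin]
    exact_mod_cast Nat.choose_le_pow r 5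
  have hr0 : (0 : ℝ) < (r : ℝ) ^ 5 := by
    have : (0 : ℝ) < r := by exact_mod_cast (by omega : 0 < r)
    positivity
  have hsub : (Fintype.piFinset S).filter (fun x => SUPR_G E x) ⊆
      (powersetCard 5 (univ : Finset (Fin r))).biUnion
        (fun s => (Fintype.piFinset S).filter (fun x => SUPR_I E x s)) := by
    intro x hx
    obtain ⟨hx1, s, hs, hx2⟩ := mem_filter.1 hx
    exact mem_biUnion.2 ⟨s, hs, mem_filter.2 ⟨hx1, hx2⟩⟩
  have h2 := (card_le_card hsub).trans card_biUnion_le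
  have h3 : A ≤ ∑ s ∈ powersetCard 5 (univ : Finset (Fin r)),
      (((Fintype.piFinset S).filter (fun x => SUPR_I E x s)).card : ℝ) := by
    refine h.trans ?_
    exact_mod_cast h2
  have h4 : ∑ _s ∈ powersetCard 5 (univ : Finset (Fin r)), A / (r : ℝ) ^ 5 ≤
      ∑ s ∈ powersetCard 5 (univ : Finset (Fin r)),
        (((Fintype.piFinset S).filter (fun x => SUPR_I E x s)).card : ℝ) := by
    refine le_trans ?_ h3
    rw [Finset.sum_const, nsmul_eq_mul]
    calc _ ≤ (r : ℝ) ^ 5 * (A / (r : ℝ) ^ 5) :=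
          mul_le_mul_of_nonneg_right hcard (by positivity)
      _ = A := by field_simp
  obtain ⟨s, hs, hle⟩ := Finset.exists_le_of_sum_le hne h4
  exact ⟨s, (mem_powersetCard.1 hs).2, hle⟩

/-- the product of the cardinalities outside `s` -/
noncomputable def SUPR_K {r : ℕ} (S : Fin r → Finset ℕ) (s : Finset (Fin r)) : ℕ :=
  ∏ l, (if l ∈ s then 1 else (S l).card)

theorem SUPR_prod {r : ℕ} (S : Fin r → Finset ℕ) (s : Finset (Fin r)) (hs : s.card = 5) :
    ∏ l, (S l).card = SUPR_K S s * ∏ a : Fin 5, (S (s.orderEmbOfFin hs a)).card := by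
  have h1 : ∏ a : Fin 5, (S (s.orderEmbOfFin hs a)).card = ∏ l ∈ s, (S l).card := by
    conv_rhs => rw [← Finset.map_orderEmbOfFin_univ s hs]
    rw [Finset.prod_map]
    rfl
  have h2 : SUPR_K S s = ∏ l ∈ univ.filter (fun l => l ∉ s), (S l).card := by
    unfold SUPR_K
    rw [Finset.prod_filter]
    refine Finset.prod_congr rfl fun l _ => ?_
    by_cases hl : l ∈ s
    · rw [if_pos hl, if_neg (not_not.2 hl)]
    · rw [if_neg hl, if_pos hl]
  have h3 : ∏ l ∈ s, (S l).card = ∏ l ∈ univ.filter (fun l => l ∈ s), (S l).card := by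
    congr 1
    ext l
    simp
  rw [h1, h2, h3, mul_comm]
  exact (Finset.prod_filter_mul_prod_filter_not univ (fun l => l ∈ s) _).symm

theorem SUPR_res {r : ℕ} (S : Fin r → Finset ℕ) (E : ℕ → ℕ → Prop) (s : Finset (Fin r))
    (hs : s.card = 5) :
    ((Fintype.piFinset S).filter (fun x => SUPR_I E x s)).card ≤
      SUPR_K S s * ((Fintype.piFinset (fun l => S (s.orderEmbOfFin hs l))).filter
        (fun y : Fin 5 → ℕ => ∀ a b : Fin 5, a < b → ¬ E (y a) (y b))).card := by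
  refine Finset.card_le_mul_card_image_of_maps_to
    (f := fun x : Fin r → ℕ => fun l : Fin 5 => x (s.orderEmbOfFin hs l)) ?_ _ ?_
  · intro x hx
    obtain ⟨hx1, hx2⟩ := mem_filter.1 hx
    refine mem_filter.2 ⟨Fintype.mem_piFinset.2 fun l => Fintype.mem_piFinset.1 hx1 _, ?_⟩
    intro a b hab
    exact hx2 _ (Finset.orderEmbOfFin_mem s hs a) _ (Finset.orderEmbOfFin_mem s hs b)
      ((s.orderEmbOfFin hs).strictMono hab)
  · intro y _
    by_cases hne : (((Fintype.piFinset S).filter (fun x => SUPR_I E x s)).filter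
        (fun x : Fin r → ℕ => (fun l : Fin 5 => x (s.orderEmbOfFin hs l)) = y)).Nonempty
    · obtain ⟨x0, hx0⟩ := hne
      have hx0' := (mem_filter.1 hx0).2
      have hsub : ((Fintype.piFinset S).filter (fun x => SUPR_I E x s)).filter
          (fun x : Fin r → ℕ => (fun l : Fin 5 => x (s.orderEmbOfFin hs l)) = y) ⊆
          Fintype.piFinset (fun l => if l ∈ s then {x0 l} else S l) := by
        intro x hx
        obtain ⟨hx1, hx2⟩ := mem_filter.1 hx
        have hx3 := Fintype.mem_piFinset.1 (mem_filter.1 hx1).1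
        refine Fintype.mem_piFinset.2 fun l => ?_
        by_cases hl : l ∈ s
        · rw [if_pos hl, mem_singleton]
          have hl' : l ∈ Set.range (s.orderEmbOfFin hs) := by
            rw [Finset.range_orderEmbOfFin]
            exact hl
          obtain ⟨a, rfl⟩ := hl'
          exact congrFun (hx2.trans hx0'.symm) a
        · rw [if_neg hl]
          exact hx3 l
      refine (card_le_card hsub).trans (le_of_eq ?_)
      rw [Fintype.card_piFinset, SUPR_K]
      refine Finset.prod_congr rfl fun l _ => ?_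
      by_cases hl : l ∈ s
      · rw [if_pos hl, if_pos hl, card_singleton]
      · rw [if_neg hl, if_neg hl]
    · rw [Finset.not_nonempty_iff_eq_empty.1 hne, card_empty]
      exact Nat.zero_le _

theorem prf_SUPR (h1 : D_TU5) : D_SUPR := by
  intro η0 hη0
  obtain ⟨η, hη, hη1⟩ : ∃ η : ℝ, 0 < η ∧ η ≤ η0 := ⟨η0, hη0, le_rfl⟩
  obtain ⟨r, hr⟩ := exists_nat_ge (4 / η + 14)
  have hη2 : 0 < 4 / η := by positivity
  have hr14 : (14 : ℝ) ≤ r := by linarith
  have hr5 : 5 ≤ r := by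
    have : (5 : ℝ) ≤ r := by linarith
    exact_mod_cast this
  have hrη : 4 + 10 * η ≤ η * r := by
    have h2 := mul_le_mul_of_nonneg_left hr hη.le
    have h3 : η * (4 / η + 14) = 4 + 14 * η := by field_simp
    rw [h3] at h2
    linarith
  have hr0 : (0 : ℝ) < r := by linarith
  refine ⟨r, η / (r : ℝ) ^ 5, by positivity, fun S hS E hE => ?_⟩
  have hE' : ∀ i j, i < j → (((S i ×ˢ S j).filter (fun y => E y.1 y.2)).card : ℝ) ≤
      (1 / 4 - η) * ((S i).card * (S j).card) := by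
    intro i j hij
    refine (hE i j hij).trans (mul_le_mul_of_nonneg_right (by linarith) (by positivity))
  have hgood := SUPR_good h1 S E η hη hrη hr14 hE'
  obtain ⟨s, hs, hle⟩ := SUPR_pig S E _ (by positivity) hr5 hgood
  refine ⟨s.orderEmbOfFin hs, (s.orderEmbOfFin hs).strictMono, ?_⟩
  have hres := SUPR_res S E s hs
  have hprod := SUPR_prod S s hs
  have hKpos : 0 < SUPR_K S s := by
    unfold SUPR_K
    refine Finset.prod_pos fun l _ => ?_
    by_cases hl : l ∈ s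
    · rw [if_pos hl]
      exact one_pos
    · rw [if_neg hl]
      exact hS l
  have hK' : (0 : ℝ) < SUPR_K S s := by exact_mod_cast hKpos
  rw [hprod] at hle
  push_cast at hle
  have hres' : ((((Fintype.piFinset S).filter (fun x => SUPR_I E x s)).card : ℕ) : ℝ) ≤
      (SUPR_K S s : ℝ) * (((Fintype.piFinset (fun l => S (s.orderEmbOfFin hs l))).filter
        (fun y : Fin 5 → ℕ => ∀ a b : Fin 5, a < b → ¬ E (y a) (y b))).card : ℝ) := by
    exact_mod_cast hres
  refine le_of_mul_le_mul_left ?_ hK'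
  calc (SUPR_K S s : ℝ) * (η / (r : ℝ) ^ 5 * ∏ l, ((S (s.orderEmbOfFin hs l)).card : ℝ))
      = η * ((SUPR_K S s : ℝ) * ∏ l, ((S (s.orderEmbOfFin hs l)).card : ℝ)) / (r : ℝ) ^ 5 := by
        ring
    _ ≤ _ := hle
    _ ≤ _ := hres'

end MPb51559.DP
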