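import Pool.Agent.Work.MP_b51559_nt.DP.Stmts

set_option autoImplicit false

/-!
# Item TAIL of block DP
-/

namespace MPb51559.DP

open Finset
open scoped Classical

/-- decidable copy of `pt` -/
def TAIL_pt (z : ℕ) : Finset ℕ := (range (z + 1)).filter (fun p => 47 < p ∧ p.Prime)

theorem TAIL_pt_eq (z : ℕ) : pt z = TAIL_pt z := by
  ext p
  simp only [pt, pz, TAIL_pt, mem_filter, mem_range]
  tauto

theorem TAIL_num : ∑ p ∈ TAIL_pt 499, (10 ^ 9 / (p * (p - 2)) + 1) ≤ 3689100 := by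
  decide +kernel

noncomputable def TAIL_a (p : ℕ) : ℝ := 1 / ((p : ℝ) * (p - 2))

theorem TAIL_a_nonneg {p : ℕ} (h : 47 < p) : 0 ≤ TAIL_a p := by
  have h2 : (47 : ℝ) < p := by exact_mod_cast h
  unfold TAIL_a
  apply div_nonneg zero_le_one
  apply mul_nonneg <;> linarith

theorem TAIL_base : ∑ p ∈ TAIL_pt 499, TAIL_a p ≤ 36891 / 10 ^ 7 := by
  have h1 : ∀ p ∈ TAIL_pt 499, TAIL_a p ≤ ((10 ^ 9 / (p * (p - 2)) + 1 : ℕ) : ℝ) / 10 ^ 9 := by
    intro p hp
    simp only [TAIL_pt, mem_filter, mem_range] at hp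
    have h2 : (47 : ℝ) < p := by exact_mod_cast hp.2.1
    have hpos : 0 < p * (p - 2) := Nat.mul_pos (by omega) (by omega)
    have hc : ((p * (p - 2) : ℕ) : ℝ) = (p : ℝ) * (p - 2) := by
      rw [Nat.cast_mul, Nat.cast_sub (by omega)]
      norm_num
    have h3 : 10 ^ 9 < (10 ^ 9 / (p * (p - 2)) + 1) * (p * (p - 2)) := by
      have := Nat.lt_div_mul_add (a := 10 ^ 9) hpos
      calc 10 ^ 9 < 10 ^ 9 / (p * (p - 2)) * (p * (p - 2)) + p * (p - 2) := this
        _ = (10 ^ 9 / (p * (p - 2)) + 1) * (p * (p - 2)) := by ring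
    have h4 : ((10 ^ 9 : ℕ) : ℝ) ≤ ((10 ^ 9 / (p * (p - 2)) + 1 : ℕ) : ℝ) * ((p : ℝ) * (p - 2)) := by
      rw [← hc, ← Nat.cast_mul]
      exact_mod_cast h3.le
    unfold TAIL_a
    rw [div_le_div_iff₀ (mul_pos (by linarith) (by linarith)) (by positivity)]
    have h5 : ((10 ^ 9 : ℕ) : ℝ) = 10 ^ 9 := by norm_num
    rw [h5] at h4
    linarith
  have h2 : ∑ p ∈ TAIL_pt 499, TAIL_a p ≤
      ∑ p ∈ TAIL_pt 499, ((10 ^ 9 / (p * (p - 2)) + 1 : ℕ) : ℝ) / 10 ^ 9 := Finset.sum_le_sum h1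
  have h3 : ∑ p ∈ TAIL_pt 499, ((10 ^ 9 / (p * (p - 2)) + 1 : ℕ) : ℝ) / 10 ^ 9 =
      ((∑ p ∈ TAIL_pt 499, (10 ^ 9 / (p * (p - 2)) + 1) : ℕ) : ℝ) / 10 ^ 9 := by
    rw [Nat.cast_sum, Finset.sum_div]
  rw [h3] at h2
  have h4 : ((∑ p ∈ TAIL_pt 499, (10 ^ 9 / (p * (p - 2)) + 1) : ℕ) : ℝ) ≤ 3689100 := by
    exact_mod_cast TAIL_num
  linarith

theorem TAIL_step (j : ℕ) : ∑ p ∈ TAIL_pt (499 + 2 * j), TAIL_a p +
    1 / (2 * ((499 + 2 * j : ℕ) : ℝ)) ≤ 36891 / 10 ^ 7 + 1 / 998 := by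
  induction j with
  | zero =>
    have := TAIL_base
    norm_num at this ⊢
    linarith
  | succ j ih =>
    have hsub : TAIL_pt (499 + 2 * (j + 1)) ⊆ insert (499 + 2 * (j + 1)) (TAIL_pt (499 + 2 * j)) := by
      intro p hp
      simp only [TAIL_pt, mem_filter, mem_range, mem_insert] at hp ⊢
      by_cases h1 : p = 499 + 2 * (j + 1)
      · exact Or.inl h1
      · refine Or.inr ⟨?_, hp.2⟩
        by_contra h2
        have h3 : p = 2 * (250 + j) := by omega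
        have h4 := hp.2.2
        rw [h3] at h4
        exact Nat.not_prime_mul (by norm_num) (by omega) h4
    have hnot : (499 + 2 * (j + 1)) ∉ TAIL_pt (499 + 2 * j) := by
      simp only [TAIL_pt, mem_filter, mem_range]
      omega
    have h1 : ∑ p ∈ TAIL_pt (499 + 2 * (j + 1)), TAIL_a p ≤
        ∑ p ∈ insert (499 + 2 * (j + 1)) (TAIL_pt (499 + 2 * j)), TAIL_a p := by
      apply Finset.sum_le_sum_of_subset_of_nonneg hsub
      intro p hp _
      apply TAIL_a_nonneg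
      rw [mem_insert] at hp
      rcases hp with h | h
      · omega
      · simp only [TAIL_pt, mem_filter, mem_range] at h
        exact h.2.1
    rw [Finset.sum_insert hnot] at h1
    have h2 : TAIL_a (499 + 2 * (j + 1)) = 1 / (2 * ((499 + 2 * j : ℕ) : ℝ)) -
        1 / (2 * ((499 + 2 * (j + 1) : ℕ) : ℝ)) := by
      unfold TAIL_a
      push_cast
      have hj : (0 : ℝ) ≤ j := Nat.cast_nonneg j
      have e1 : (499 + 2 * ((j : ℝ) + 1)) ≠ 0 := by positivity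
      have e2 : (499 + 2 * (j : ℝ)) ≠ 0 := by positivity
      have e3 : (499 + 2 * ((j : ℝ) + 1) - 2) = 499 + 2 * (j : ℝ) := by ring
      rw [e3]
      field_simp
      ring
    rw [h2] at h1
    linarith

theorem TAIL_sum (z : ℕ) : ∑ p ∈ TAIL_pt z, TAIL_a p ≤ 36891 / 10 ^ 7 + 1 / 998 := by
  have h1 : ∑ p ∈ TAIL_pt z, TAIL_a p ≤ ∑ p ∈ TAIL_pt (499 + 2 * z), TAIL_a p := by
    apply Finset.sum_le_sum_of_subset_of_nonneg
    · intro p hp
      simp only [TAIL_pt, mem_filter, mem_range] at hp ⊢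
      exact ⟨by omega, hp.2⟩
    · intro p hp _
      apply TAIL_a_nonneg
      simp only [TAIL_pt, mem_filter, mem_range] at hp
      exact hp.2.1
  have h2 := TAIL_step z
  have h3 : (0 : ℝ) ≤ 1 / (2 * ((499 + 2 * z : ℕ) : ℝ)) := by positivity
  linarith

theorem prf_TAIL : D_TAIL := by
  intro z
  rw [TAIL_pt_eq]
  have h1 : ∏ p ∈ TAIL_pt z, (1 + 1 / ((p : ℝ) * (p - 2))) ≤
      Real.exp (∑ p ∈ TAIL_pt z, TAIL_a p) := by
    rw [Real.exp_sum]
    apply Finset.prod_le_prod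
    · intro p hp
      simp only [TAIL_pt, mem_filter, mem_range] at hp
      have := TAIL_a_nonneg hp.2.1
      unfold TAIL_a at this
      linarith
    · intro p hp
      have := Real.add_one_le_exp (TAIL_a p)
      unfold TAIL_a at this ⊢
      linarith
  have h2 := TAIL_sum z
  have h3 : Real.exp (∑ p ∈ TAIL_pt z, TAIL_a p) ≤ Real.exp (47 / 10 ^ 4) := by
    apply Real.exp_le_exp.mpr
    norm_num at h2 ⊢
    linarith
  have h4 := Real.abs_exp_sub_one_sub_id_le (x := 47 / 10 ^ 4) (by rw [abs_of_nonneg] <;> norm_num)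
  have h5 := (abs_le.mp h4).2
  refine le_trans h1 (le_trans h3 ?_)
  norm_num at h5 ⊢
  linarith

end MPb51559.DP
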