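import Pool.Agent.Work.MP_b51559_nt.DP.Stmts

set_option autoImplicit false

/-!
# Block DP, item WB: bounds for the weight
-/

namespace MPb51559.DP

open Finset
open scoped Classical

theorem WB_two (z p : ℕ) (hp : p ∈ pz z) : 2 ≤ p := (Finset.mem_filter.1 hp).2.two_le

theorem WB_wl (p h : ℕ) (hp : 2 ≤ p) : 0 ≤ DN.wl p h ∧ DN.wl p h ≤ (p : ℝ) / (p - 1) := by
  have h2 : (2 : ℝ) ≤ p := by exact_mod_cast hp
  have h1 : (0 : ℝ) < (p : ℝ) - 1 := by linarith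
  unfold DN.wl
  split_ifs with hd
  · exact ⟨by positivity, le_rfl⟩
  · have h3 : (0 : ℝ) ≤ (p : ℝ) - 2 := by linarith
    refine ⟨by positivity, ?_⟩
    rw [div_le_div_iff₀ (by positivity) h1]
    have e : (p : ℝ) * (p - 1) ^ 2 - (p : ℝ) * (p - 2) * (p - 1) = p * (p - 1) := by ring
    have h4 : (0 : ℝ) ≤ (p : ℝ) * (p - 1) := by positivity
    linarith

theorem WB_fac (p : ℕ) (hp : 2 ≤ p) : 0 < 1 - 1 / (p : ℝ) ∧ 1 - 1 / (p : ℝ) ≤ 1 := by
  have h2 : (2 : ℝ) ≤ p := by exact_mod_cast hp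
  have h3 : 1 / (p : ℝ) ≤ 1 / 2 := one_div_le_one_div_of_le (by norm_num) h2
  have h4 : 0 ≤ 1 / (p : ℝ) := by positivity
  constructor <;> linarith

theorem prf_WB : D_WB := by
  intro z
  refine ⟨Finset.prod_pos fun p hp => (WB_fac p (WB_two z p hp)).1,
    Finset.prod_le_one (fun p hp => (WB_fac p (WB_two z p hp)).1.le)
      fun p hp => (WB_fac p (WB_two z p hp)).2, ?_⟩
  intro h
  refine ⟨Finset.prod_nonneg fun p hp => (WB_wl p h (WB_two z p hp)).1, ?_⟩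
  unfold dz wz
  rw [← Finset.prod_mul_distrib]
  refine Finset.prod_le_one (fun p hp => ?_) fun p hp => ?_
  · exact mul_nonneg (WB_fac p (WB_two z p hp)).1.le (WB_wl p h (WB_two z p hp)).1
  · have hp2 := WB_two z p hp
    have h2 : (2 : ℝ) ≤ p := by exact_mod_cast hp2
    have h1 : (0 : ℝ) < (p : ℝ) - 1 := by linarith
    calc (1 - 1 / (p : ℝ)) * DN.wl p h ≤ (1 - 1 / (p : ℝ)) * ((p : ℝ) / (p - 1)) :=
          mul_le_mul_of_nonneg_left (WB_wl p h hp2).2 (WB_fac p hp2).1.le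
      _ = 1 := by
          field_simp

end MPb51559.DP
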