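import Pool.Agent.Work.MP_b51559_nt.DP.Stmts

set_option autoImplicit false

/-!
# Block DP, item KST
-/

namespace MPb51559.DP

open Finset
open scoped Classical

theorem prf_KST (h1 : D_KS1) : D_KST := by
  intro d κ
  induction d with
  | zero =>
    intro c hc
    refine ⟨0, fun V _ S hS => ⟨fun i => i.elim0, fun i => i.elim0, fun y _ => ?_⟩⟩
    by_contra hno
    have h0 : (Fintype.piFinset V).filter (fun y => S y) = ∅ := by
      rw [Finset.filter_eq_empty_iff]
      intro z _ hz
      apply hno
      have : z = y := funext fun i => i.elim0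
      rwa [this] at hz
    rw [h0] at hS
    simp only [Finset.univ_eq_empty, Finset.prod_empty, Finset.card_empty, Nat.cast_zero] at hS
    linarith
  | succ d ih =>
    intro c hc
    obtain ⟨n1, c', hc', k1⟩ := h1 κ c hc
    obtain ⟨n2, k2⟩ := ih c' hc'
    refine ⟨max (max n1 n2) 1, fun V hV S hS => ?_⟩
    set Y : Finset (Fin d → ℕ) := Fintype.piFinset (fun i : Fin d => V i.succ) with hY
    have hYc : (Y.card : ℝ) = ∏ i : Fin d, ((V i.succ).card : ℝ) := by
      rw [hY, Fintype.card_piFinset]
      push_cast
      rfl
    have hYpos : 0 < Y.card := by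
      have : (0 : ℝ) < Y.card := by
        rw [hYc]
        refine Finset.prod_pos fun i _ => ?_
        have := hV i.succ
        have h2 : 1 ≤ (V i.succ).card := le_trans (le_max_right _ _) this
        exact_mod_cast h2
      exact_mod_cast this
    have hcard : ((Fintype.piFinset V).filter (fun y => S y)).card =
        ((V 0 ×ˢ Y).filter (fun y => S (Fin.cons y.1 y.2))).card := by
      refine Finset.card_bij' (fun y _ => (y 0, Fin.tail y)) (fun y _ => Fin.cons y.1 y.2) ?_ ?_ ?_ ?_
      · intro y hy
        rw [Finset.mem_filter, Fintype.mem_piFinset] at hy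
        rw [Finset.mem_filter, Finset.mem_product, hY, Fintype.mem_piFinset]
        refine ⟨⟨hy.1 0, fun i => hy.1 i.succ⟩, ?_⟩
        simp only [Fin.cons_self_tail]
        exact hy.2
      · intro y hy
        rw [Finset.mem_filter, Finset.mem_product, hY, Fintype.mem_piFinset] at hy
        rw [Finset.mem_filter, Fintype.mem_piFinset]
        refine ⟨fun i => ?_, hy.2⟩
        refine Fin.cases ?_ (fun j => ?_) i
        · simpa using hy.1.1
        · simpa using hy.1.2 j
      · intro y _
        simp only [Fin.cons_self_tail]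
      · intro y _
        simp only [Fin.cons_zero, Fin.tail_cons, Prod.mk.eta]
    have hS' : c * ((V 0).card * Y.card) ≤
        (((V 0 ×ˢ Y).filter (fun y => S (Fin.cons y.1 y.2))).card : ℝ) := by
      rw [← hcard, hYc, ← Fin.prod_univ_succ (fun i => ((V i).card : ℝ))]
      exact hS
    obtain ⟨A0, hA0, hA0c, hA0Y⟩ := k1 (V 0) (Fin d → ℕ) Y (fun a y => S (Fin.cons a y))
      (le_trans (le_trans (le_max_left _ _) (le_max_left _ _)) (hV 0)) hYpos hS'
    have hS2 : c' * ∏ i : Fin d, (((fun i : Fin d => V i.succ) i).card : ℝ) ≤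
        (((Fintype.piFinset (fun i : Fin d => V i.succ)).filter
          (fun y => ∀ a ∈ A0, S (Fin.cons a y))).card : ℝ) := by
      rw [← hYc]
      exact hA0Y
    obtain ⟨A, hA, hAS⟩ := k2 (fun i : Fin d => V i.succ)
      (fun i => le_trans (le_trans (le_max_right _ _) (le_max_left _ _)) (hV i.succ))
      (fun y => ∀ a ∈ A0, S (Fin.cons a y)) (by convert! hS2)
    refine ⟨Fin.cons A0 A, fun i => ?_, fun y hy => ?_⟩
    · refine Fin.cases ?_ (fun j => ?_) i
      · simpa using ⟨hA0, hA0c⟩
      · simpa using hA j
    · have h3 := hAS (Fin.tail y) (fun i => by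
        have := hy i.succ
        simpa [Fin.tail] using this) (y 0) (by
        have := hy 0
        simpa using this)
      rwa [Fin.cons_self_tail] at h3

end MPb51559.DP
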