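import Pool.Agent.Work.MP_b51559_nt.DP.Stmts

set_option autoImplicit false

/-!
# Block DP, item ES: Erdos and Stone in the form needed for consecutive primes in one tuple
-/

namespace MPb51559.DP

open Finset
open scoped Classical

/-- from a function avoiding all cross pairs one gets every single cross pair -/
theorem ES_cross {κ : ℕ} (A : Fin 5 → Finset ℕ) (hc : ∀ i, (A i).card = κ) (E : ℕ → ℕ → Prop)
    (h : ∀ y : Fin 5 → ℕ, (∀ i, y i ∈ A i) → ∀ a b : Fin 5, a < b → ¬ E (y a) (y b))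
    (i j : Fin 5) (hij : i < j) (a b : ℕ) (ha : a ∈ A i) (hb : b ∈ A j) : ¬ E a b := by
  have hκ : 0 < κ := by
    rw [← hc i]
    exact card_pos.mpr ⟨a, ha⟩
  have hne : ∀ l, (A l).Nonempty := fun l => by
    rw [← card_pos, hc l]
    exact hκ
  choose y0 hy0 using hne
  have h1 := h (Function.update (Function.update y0 j b) i a) (fun l => by
    by_cases hl : l = i
    · subst hl
      rw [Function.update_self]
      exact ha
    · rw [Function.update_of_ne hl]
      by_cases hl2 : l = j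
      · subst hl2
        rw [Function.update_self]
        exact hb
      · rw [Function.update_of_ne hl2]
        exact hy0 l) i j hij
  rw [Function.update_self, Function.update_of_ne hij.ne', Function.update_self] at h1
  exact h1

/-- adding the diagonal costs at most the cardinality -/
theorem ES_diag (V : Finset ℕ) (R E : ℕ → ℕ → Prop) (hE : ∀ a b, E a b ↔ (a = b ∨ R a b)) :
    ((V ×ˢ V).filter (fun y => E y.1 y.2)).card ≤
      V.card + ((V ×ˢ V).filter (fun y => R y.1 y.2)).card := by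
  have hsub : (V ×ˢ V).filter (fun y => E y.1 y.2) ⊆
      (V ×ˢ V).filter (fun y => y.1 = y.2) ∪ (V ×ˢ V).filter (fun y => R y.1 y.2) := by
    intro y hy
    rw [mem_filter, hE] at hy
    rw [mem_union, mem_filter, mem_filter]
    rcases hy.2 with h | h
    · exact Or.inl ⟨hy.1, h⟩
    · exact Or.inr ⟨hy.1, h⟩
  refine (card_le_card hsub).trans ((card_union_le _ _).trans (Nat.add_le_add_right ?_ _))
  refine card_le_card_of_injOn (fun y => y.1) ?_ ?_
  · intro y hy
    have hy' := mem_filter.mp (mem_coe.mp hy)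
    exact mem_coe.mpr (mem_product.mp hy'.1).1
  · intro y hy z hz hyz
    have hy' := (mem_filter.mp (mem_coe.mp hy)).2
    have hz' := (mem_filter.mp (mem_coe.mp hz)).2
    have hyz' : y.1 = z.1 := hyz
    exact Prod.ext hyz' (by rw [← hy', ← hz', hyz'])

theorem prf_ES (h1 : D_SUPR) (h2 : D_KST) : D_ES := by
  intro κ ε hε
  obtain ⟨r, c, hc, hS⟩ := h1 (ε / 2) (by positivity)
  obtain ⟨n0, hn0⟩ := h2 5 κ c hc
  obtain ⟨n1, hn1⟩ := exists_nat_ge (2 / ε)
  refine ⟨max n0 (n1 + 1), ?_⟩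
  intro V hV R hR hyp
  by_contra hcon
  push Not at hcon
  have hVn0 : n0 ≤ V.card := (le_max_left _ _).trans hV
  have hVn1 : n1 + 1 ≤ V.card := (le_max_right _ _).trans hV
  have hVpos : 0 < V.card := by omega
  have hVε : 2 / ε ≤ (V.card : ℝ) := by
    have : (n1 : ℝ) ≤ V.card := by exact_mod_cast (by omega : n1 ≤ V.card)
    linarith
  have hVε' : (V.card : ℝ) ≤ ε / 2 * (V.card : ℝ) ^ 2 := by
    rw [div_le_iff₀ hε] at hVε
    have h0 : (0 : ℝ) ≤ V.card := Nat.cast_nonneg _
    nlinarith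
  obtain ⟨E, hE⟩ : ∃ E : ℕ → ℕ → Prop, ∀ a b, E a b ↔ (a = b ∨ R a b) := ⟨_, fun _ _ => Iff.rfl⟩
  obtain ⟨i, hi, hcount⟩ := hS (fun _ => V) (fun _ => hVpos) E
    (fun _ _ _ => by
      have e1 := ES_diag V R E hE
      have e2 : (((V ×ˢ V).filter (fun y => E y.1 y.2)).card : ℝ) ≤
          V.card + ((V ×ˢ V).filter (fun y => R y.1 y.2)).card := by exact_mod_cast e1
      refine e2.trans ?_
      nlinarith)
  obtain ⟨P, hP⟩ : ∃ P : (Fin 5 → ℕ) → Prop, ∀ y, P y ↔
      ∀ a b : Fin 5, a < b → ¬ E (y a) (y b) := ⟨_, fun _ => Iff.rfl⟩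
  obtain ⟨A, hA, hy'⟩ := hn0 (fun _ => V) (fun _ => hVn0) P
    (hcount.trans (le_of_eq (congrArg (Nat.cast : ℕ → ℝ)
      (congrArg card (filter_congr fun y _ => (hP y).symm)))))
  have hy : ∀ y : Fin 5 → ℕ, (∀ i, y i ∈ A i) → ∀ a b : Fin 5, a < b → ¬ E (y a) (y b) :=
    fun y h => (hP y).mp (hy' y h)
  have hcross : ∀ i j : Fin 5, i < j → ∀ a ∈ A i, ∀ b ∈ A j, ¬ (a = b ∨ R a b) := by
    intro i j hij a ha b hb
    rw [← hE]
    exact ES_cross A (fun l => (hA l).2) E hy i j hij a b ha hb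
  have hdisj : ∀ i j : Fin 5, i ≠ j → Disjoint (A i) (A j) := by
    intro i j hij
    rw [disjoint_left]
    intro a ha hb
    rcases lt_or_gt_of_ne hij with h | h
    · exact hcross i j h a ha a hb (Or.inl rfl)
    · exact hcross j i h a hb a ha (Or.inl rfl)
  obtain ⟨i', j', hij, a, ha, b, hb, hab⟩ := hyp A hA hdisj
  rcases lt_or_gt_of_ne hij with h | h
  · exact hcross i' j' h a ha b hb (Or.inr hab)
  · exact hcross j' i' h b hb a ha (Or.inr (hR a b hab))

end MPb51559.DP
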