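import Pool.Agent.Work.MP_b51559_nt.DP.Defs

set_option autoImplicit false

/-!
# Block DP: the statements

Every docstring is the complete proof. Items of block DN which are models or are used are theorems
`MPb51559.DN.prf_X : DN.D_X` in `DN/X.lean` (you may import them and copy from them).
-/

namespace MPb51559.DP

open Finset
open scoped Classical

/-! ## Combinatorial half -/

/-- WB, bounds for the weight. wl p h ≥ 0 and wl p h ≤ p/(p-1) = (1 - 1/p)^(-1) for every prime p, so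
0 ≤ wz z h and dz z * wz z h ≤ 1; every factor 1 - 1/p is in (0, 1). Model: DN/WB.lean. -/
def D_WB : Prop := ∀ z : ℕ, 0 < dz z ∧ dz z ≤ 1 ∧ ∀ h : ℕ, 0 ≤ wz z h ∧ dz z * wz z h ≤ 1

/-- CB, the number of integers in (L, N] prime to primorial z: as DN/CB.lean (CRT and PER) for [1, N] and
[1, L], the error is at most primorial z for each. -/
def D_CB : Prop := ∀ z L N : ℕ, L ≤ N →
  |((Bz z L N).card : ℝ) - dz z * ((N : ℝ) - L)| ≤ 2 * primorial z

/-- C2, pairs: as DN/C2.lean for [1, N] and [1, L] (PER gives both bounds), the mean is dz² wz h and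
the period sum is at most primorial z. -/
def D_C2 : Prop := ∀ z h L N : ℕ, L ≤ N →
  (((Bz z L N).filter (fun x => (x + h).Coprime (primorial z))).card : ℝ) ≤
    dz z ^ 2 * wz z h * ((N : ℝ) - L) + 2 * primorial z

/-- PAIR. For x in (L, M], y in (K, N], M ≤ K: x < y, so h = y - x is in PP P N, and for given h the
number of x is at most C2 (x in Bz z L M, x + h = y coprime to primorial z). Sum over h ∈ PP P N
(#PP ≤ N): dz² (M - L) N Wz + 2 primorial z N ≤ the bound. (N = 0: both sides 0.) USES: C2. -/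
def D_PAIR : Prop := ∀ (z : ℕ) (P : Set ℕ) (L M K N : ℕ), L ≤ M → M ≤ K → K ≤ N →
  (((Bz z L M ×ˢ Bz z K N).filter (fun y => y.2 - y.1 ∈ P)).card : ℝ) ≤
    dz z ^ 2 * M * N * Wz z P N + 2 * primorial z * N

/-- PRO, the same as a probability. WLOG η ≤ 1. 0 ≤ Wz ≤ B := 1/dz (WB, #PP ≤ N). For small θ,
e.g. θ = η/(8 (B + 1)), M ≥ M0 and C L ≤ M: #Bz z L M ≥ dz (M - L) - 2 primorial z ≥ (1-θ) dz M (CB), and
the same for K, N; (Wz + η)(1-θ)² ≥ Wz + η - 2θ(B+1) ≥ Wz + η/2, and 2 primorial z N ≤ (η/2) dz² M N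
for M ≥ M0. Finally (1-θ) dz M ≥ n0 for M ≥ M0. Model: DN/PRO.lean. USES: PAIR, CB, WB. -/
def D_PRO : Prop := ∀ (z : ℕ) (η : ℝ), 0 < η → ∀ n0 : ℕ, ∃ M0 C : ℕ, ∀ (P : Set ℕ) (L M K N : ℕ),
  M0 ≤ M → C * L ≤ M → M ≤ K → C * K ≤ N →
  n0 ≤ (Bz z L M).card ∧ n0 ≤ (Bz z K N).card ∧
  (((Bz z L M ×ˢ Bz z K N).filter (fun y => y.2 - y.1 ∈ P)).card : ℝ) ≤
    (Wz z P N + η) * ((Bz z L M).card * (Bz z K N).card)

/-- TU5, Turán for 5 (48 replaced by 4). Model: DN/TUR.lean. -/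
def D_TU5 : Prop := ∀ (r : ℕ) (R : Fin r → Fin r → Prop),
  (∀ s : Finset (Fin r), s.card = 5 → ∃ i ∈ s, ∃ j ∈ s, i < j ∧ R i j) →
  (r : ℝ) ^ 2 / 8 - r / 2 ≤
    ((univ.filter (fun z : Fin r × Fin r => z.1 < z.2 ∧ R z.1 z.2)).card : ℝ)

/-- SUPR, supersaturation. r = an integer > 2/η + 5, c = η/r^5 (WLOG η ≤ 1). Let X = Π S j
(Fintype.piFinset S), e(x) = number of (i,j), i < j, with E (x i) (x j). Averaging (as in DN/AVG.lean)
Σ_x e(x) = Σ_{i<j} #{E} Π_{l≠i,j} #S l ≤ r(r-1)/2 (1/4 - η) #X ≤ (r²/8 - η r²/2 + η r/2) #X. By TU5 e(x) ≥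
r²/8 - r/2 unless x is GOOD: there is a 5-set s of indices without i < j in s, E (x i)(x j). If g
is the number of good x: (#X - g)(r²/8 - r/2) ≤ (r²/8 - ηr²/2 + ηr/2) #X, and g < η #X would give
ηr²/2 - ηr/2 ≤ r/2 + ηr²/8, false for r > 2/η + 5 (r (3η r/8 - η/2 - 1/2) > 0 needs
3ηr/8 > (1+η)/2: enlarge r if you like, any r ≥ 4/η + 10 is fine). So g ≥ η #X, and
by the pigeonhole principle one 5-set s (at most r^5 of them) works for at least η #X/r^5 of the x.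
i = the increasing enumeration of s (Finset.orderEmbOfFin). Restricting x to s: every y in the product over s
has exactly Π_{l ∉ s} #S l extensions. -/
def D_SUPR : Prop := ∀ η : ℝ, 0 < η → ∃ (r : ℕ) (c : ℝ), 0 < c ∧ ∀ S : Fin r → Finset ℕ,
  (∀ j, 0 < (S j).card) → ∀ E : ℕ → ℕ → Prop,
  (∀ i j, i < j → (((S i ×ˢ S j).filter (fun y => E y.1 y.2)).card : ℝ) ≤
    (1 / 4 - η) * ((S i).card * (S j).card)) →
  ∃ i : Fin 5 → Fin r, StrictMono i ∧
    c * ∏ l, ((S (i l)).card : ℝ) ≤ (((Fintype.piFinset (fun l => S (i l))).filter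
      (fun y : Fin 5 → ℕ => ∀ a b : Fin 5, a < b → ¬ E (y a) (y b))).card : ℝ)

/-- KS1, one step of Kovari, Sos, Turan. WLOG c ≤ 1, κ ≥ 1. m = a natural number ≥ 2κ/c, n0 = m,
c' = c/2^(m+1). Let deg v = #{y ∈ Y : S v y}. There is B ⊆ V with #B = m and Σ_{v ∈ B} deg v ≥ c m #Y (the
m elements of largest degree; or average over all m-subsets). If fewer than (c/2) #Y of the y have at
least κ neighbours in B, then Σ_{v∈B} deg v < (c/2) #Y m + #Y κ ≤ c m #Y (κ ≤ c m/2), contradiction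
(take care of strictness: y with < κ neighbours contribute ≤ κ - 1, #Y > 0). Each such y chooses a
κ-subset of B; there are at most 2^m, so one A is chosen by at least (c/2)/2^m #Y of the y. -/
def D_KS1 : Prop := ∀ (κ : ℕ) (c : ℝ), 0 < c → ∃ (n0 : ℕ) (c' : ℝ), 0 < c' ∧
  ∀ (V : Finset ℕ) (α : Type) (Y : Finset α) (S : ℕ → α → Prop), n0 ≤ V.card → 0 < Y.card →
  c * (V.card * Y.card) ≤ (((V ×ˢ Y).filter (fun y => S y.1 y.2)).card : ℝ) →
  ∃ A ⊆ V, A.card = κ ∧ c' * Y.card ≤ ((Y.filter (fun y => ∀ a ∈ A, S a y)).card : ℝ)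

/-- KST, d-partite version, induction on d. d = 0: the empty function satisfies S (the filter is
nonempty as c > 0). d + 1: KS1 with V 0, Y = Fintype.piFinset (V ∘ Fin.succ) (nonempty), S v y = S
(Fin.cons v y), gives A 0 and c'; the induction hypothesis for c', κ, V ∘ Fin.succ and the predicate
∀ a ∈ A 0, S (Fin.cons a y). (piFinset over Fin (d+1) is the product by Fin.cons; n0 at least 1.) USES: KS1. -/
def D_KST : Prop := ∀ (d κ : ℕ) (c : ℝ), 0 < c → ∃ n0 : ℕ, ∀ V : Fin d → Finset ℕ,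
  (∀ i, n0 ≤ (V i).card) → ∀ S : (Fin d → ℕ) → Prop,
  c * ∏ i, ((V i).card : ℝ) ≤ (((Fintype.piFinset V).filter (fun y => S y)).card : ℝ) →
  ∃ A : Fin d → Finset ℕ, (∀ i, A i ⊆ V i ∧ (A i).card = κ) ∧ ∀ y, (∀ i, y i ∈ A i) → S y

/-- SEP, the main lemma. SUPR with η/2 gives r, c; KST with d = 5, κ, c gives n0 (replace by max n0 1);
PRO with z, η/2, n0 gives M0, C (take C ≥ 1). Suppose Wz z P (N j) < 1/4 - η for all j. Put
L j = 0 for j = 0 and N (j-1) otherwise, S j = Bz z (L j) (N j), E a b = (b - a ∈ P). For i < j: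
N i ≤ L j (chain), C L i ≤ N i, C L j ≤ N j, so PRO with (L i, N i, L j, N j) gives #edges ≤ (1/4 - η/2)
#S i #S j. SUPR gives i, KST (V l = S (i l)) gives A with all cross pairs not in P. But A satisfies the
hypotheses of Grp5: b in (0, H], coprime, for l < l': a ≤ N (i l) ≤ L (i l') < b. So some a ∈ A l,
b ∈ A l', l < l', b - a ∈ P; take y with y l = a, y l' = b and arbitrary other values (κ ≥ 1 since
A l is not empty): contradiction. (Nonemptiness of S j: PRO; for the cardinality of the single sets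
use PRO with K = N i or so; r ≥ 1; if r = 0 SUPR would give a map Fin 5 → Fin 0, the hypothesis
of SUPR is empty, so r ≠ 0 and in fact r ≥ 5.) USES: PRO, SUPR, KST. -/
def D_SEP : Prop := ∀ (κ z : ℕ) (η : ℝ), 0 < η → ∃ r M0 C : ℕ, ∀ (H : ℕ) (P : Set ℕ),
  Grp5 κ z P H → ∀ N : Fin r → ℕ, (∀ j, M0 ≤ N j ∧ N j ≤ H) → (∀ i j, i < j → C * N i ≤ N j) →
  ∃ j, 1 / 4 - η ≤ Wz z P (N j)

/-! ## Numerical half: the mean of max (wz - 57/20) 0 -/

/-- REC: the sum over a period is the sum over the divisibility patterns. Induction on the list: for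
a function F of period M = l.prod and a prime p prime to M: Σ_{n<pM, p∣n} F n = Σ_{n<M} F n and
Σ_{n<pM, ¬p∣n} F n = (p-1) Σ_{n<M} F n (DN.prf_CRT or a direct bijection), with
F n = g (v' Π_{q∈l} wl q n), v' = v p/(p-1) resp. v p(p-2)/(p-1)². -/
def D_REC : Prop := ∀ (g : ℝ → ℝ) (l : List ℕ), l.Nodup → (∀ p ∈ l, p.Prime) → ∀ u v : ℝ,
  u * ∑ n ∈ range l.prod, g (v * (l.map (fun p => DN.wl p n)).prod) = rc g l u v

/-- RCK: from reals to integers. Induction on l (for all u, V): with g t = max (t - τ) 0, c = τ E a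
natural number, rc g l u (V Π_{p∈l} ((p-1)²/p) / E) = rk l c u V / E. Step: multiplying by
p/(p-1) gives V (p-1), by p(p-2)/(p-1)² gives V (p-2). Leaf: u max (V/E - τ) 0 = u (V - c)/E with
truncated subtraction. (Nat subtraction p - 1, p - 2 is exact as p ≥ 2.) -/
def D_RCK : Prop := ∀ (τ E : ℝ) (c : ℕ), 0 < E → (c : ℝ) = τ * E → ∀ l : List ℕ, (∀ p ∈ l, 2 ≤ p) →
  ∀ u V : ℕ, rc (fun t => max (t - τ) 0) l u (V * (l.map (fun p : ℕ => ((p : ℝ) - 1) ^ 2 / p)).prod / E) =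
    (rk l c u V : ℝ) / E

/-- KER: the integer computation (16384 patterns, decide +kernel; true value 0.0407105 of the left side
divided by primorial 47 (Π (p-1)²)). Here c = 57/20 Π (p-1)², V = 2 Π p. Write it as
20 * ... if the division by 20 is not exact in your form: (lp.map (fun p => (p-1)^2)).prod is divisible
by 20. -/
def D_KER : Prop :=
  100000 * rk lp (57 * ((lp.map (fun p => (p - 1) ^ 2)).prod / 20)) 1 (2 * lp.prod) ≤
    4072 * (primorial 47 * (lp.map (fun p => (p - 1) ^ 2)).prod) ∧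
  20 ∣ (lp.map (fun p => (p - 1) ^ 2)).prod ∧ 2 * lp.prod = primorial 47

/-- E47: REC for the list 2 :: lp (nodup, primes; product primorial 47; the product over the list is
wz 47 n, pz 47 = {2,3,..,47} by decide), u = v = 1, g t = max (t - 57/20) 0: the branch p ∤ n of p = 2
has v = 0 and g vanishes on it (v = 0 stays 0), the branch 2 ∣ n has v = 2; then RCK with E = Π (p-1)²,
V = 2 Π p and KER. USES: REC, RCK, KER. -/
def D_E47 : Prop := ∑ n ∈ range (primorial 47), max (wz 47 n - 57 / 20) 0 ≤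
  4072 / 100000 * primorial 47

/-- TAIL: Π_{47 < p ≤ z} (1 + 1/(p(p-2))) ≤ exp (Σ 1/(p(p-2))), the sum over the primes in (47, 500) is
≤ 0.003689 (80 explicit primes), the sum over the odd n ≥ 501 is at most Σ (1/2)(1/(n-2) - 1/n) ≤
1/998 ≤ 0.0010021, and exp 0.0046911 ≤ 1.0048. -/
def D_TAIL : Prop := ∀ z : ℕ, ∏ p ∈ pt z, (1 + 1 / ((p : ℝ) * (p - 2))) ≤ 1 + 48 / 10000

/-- MU: the mean of wz 47 n (Π_{p ∈ pt z} ul p n - 1). By DN.prf_CRT for s = pz z: f p n = wl p n for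
p ≤ 47, with Σ_{n<p} wl p n = p [p/(p-1) + (p-1) p (p-2)/(p-1)² = p], and f p n = ul p n for p > 47,
Σ_{n<p} ul p n = (p-1)/(p-2) + p - 1 = p (1 + 1/(p(p-2))); for the term with 1: f p n = 1. -/
def D_MU : Prop := ∀ z : ℕ, 47 ≤ z →
  ∑ n ∈ range (primorial z), wz 47 n * ((∏ p ∈ pt z, ul p n) - 1) =
    primorial z * ((∏ p ∈ pt z, (1 + 1 / ((p : ℝ) * (p - 2)))) - 1)

/-- TRZ, pointwise: wl p n ≤ ul p n for p > 47 (p ∣ n: p/(p-1) ≤ (p-1)/(p-2); p ∤ n: p(p-2)/(p-1)² ≤ 1), so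
wz z n ≤ wz 47 n U, U = Π_{pt z} ul p n ≥ 1, and max (w U - t) 0 ≤ max (w - t) 0 + w (U - 1) for w ≥ 0. -/
def D_TRZ : Prop := ∀ z : ℕ, 47 ≤ z → ∀ (n : ℕ) (t : ℝ),
  max (wz z n - t) 0 ≤ max (wz 47 n - t) 0 + wz 47 n * ((∏ p ∈ pt z, ul p n) - 1)

/-- MEAN. F n = max (wz z n - 57/20) 0 has period primorial z, F ≥ 0, F ≤ wz z n ≤ 1/dz z (WB), so the
period sum S is ≤ primorial z / dz z, and S ≤ Σ_{n < primorial z} (TRZ) ≤ (primorial z/primorial 47)
(4072/100000) primorial 47 + primorial z 48/10000 (wz 47 has period primorial 47, which divides primorial z: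
sum over blocks; E47, MU, TAIL). PER: the sum over [1, N] is ≤ N S/primorial z + S. USES: WB, E47, TAIL, MU, TRZ. -/
def D_MEAN : Prop := ∀ z : ℕ, 47 ≤ z → ∀ N : ℕ, ∑ h ∈ Icc 1 N, max (wz z h - 57 / 20) 0 ≤
  N * (4072 / 100000 + 48 / 10000) + primorial z / dz z

/-- DEN: N Wz ≤ (57/20) #PP + Σ_{h ≤ N} max (wz - 57/20) 0 (model DN/TRU.lean), so (57/20) #PP ≥
N (1/4 - 1/10000 - 0.04072 - 0.0048) - const = 0.20438 N - const, #PP ≥ 0.071712 N - const ≥
(100/1396) N for N ≥ N0 (100/1396 = 0.0716332..). USES: MEAN. -/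
def D_DEN : Prop := ∀ z : ℕ, 47 ≤ z → ∃ N0 : ℕ, ∀ (P : Set ℕ) (N : ℕ), N0 ≤ N →
  1 / 4 - 1 / 10000 ≤ Wz z P N → 100 * N ≤ 1396 * (DN.PP P N).card

/-! ## Conclusions -/

/-- KEY: Grp5 κ z P H implies Grp5 κ z' P H for z' = max z 47 (primorial z divides primorial z', coprimality
to the larger number is stronger). SEP with z', η = 1/10000 and DEN with z'. As DN/KEY.lean. USES: SEP, DEN. -/
def D_KEY : Prop := ∀ κ z : ℕ, ∃ r N0 C : ℕ, ∀ (H : ℕ) (P : Set ℕ), Grp5 κ z P H → ∀ N : ℕ → ℕ,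
  (∀ j < r, N0 ≤ N j ∧ N j ≤ H) → (∀ j, j + 1 < r → C * N j ≤ N (j + 1)) →
  ∃ j < r, 100 * N j ≤ 1396 * (DN.PP P (N j)).card

/-- UNI: as DN/UNI.lean with DN.D_COVER (theorem DN.prf_COVER). USES: KEY. -/
def D_UNI : Prop := ∀ κ z : ℕ, ∃ C r : ℕ, ∀ (H : ℕ) (P : Set ℕ), Grp5 κ z P H →
  ∃ T : Finset ℕ, T.card ≤ r ∧
  ∀ N ≤ H, 100 * N ≤ 1396 * (DN.PP P N).card ∨ N ≤ C ∨ ∃ t ∈ T, t ≤ N ∧ N ≤ C * t

/-- LOW: as DN/LOW.lean. USES: KEY. -/
def D_LOW : Prop := ∀ (κ z : ℕ) (P : Set ℕ), (∀ H, Grp5 κ z P H) →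
  ∃ N0 : ℕ, ∀ N ≥ N0, N ≤ 14 * (DN.PP P N).card

/-- LOG: as DN/LOG.lean with DN.prf_HAR, DN.prf_ABEL. USES: UNI. -/
def D_LOG : Prop := ∀ κ z : ℕ, ∃ H0 : ℕ, ∀ H ≥ H0, ∀ P : Set ℕ, Grp5 κ z P H →
  Real.log H ≤ 14 * ∑ h ∈ DN.PP P H, 1 / (h : ℝ)

/-- ES, Erdos and Stone in the form needed for consecutive primes in one tuple. Let η = ε/2 (if
ε ≥ 1/4 nothing to prove). If the number of pairs of V × V with R is < (1/4 - ε) #V², put E a b = (a = b ∨
R a b); the number of pairs with E is ≤ (1/4 - ε) #V² + #V ≤ (1/4 - η) #V² for #V ≥ 2/ε. SUPR (η) with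
all S j = V gives c #V^5 5-tuples of V (r, c depend only on η), pairwise not E; KST (d = 5, κ, c) gives A l ⊆ V of
κ elements, not E for a ∈ A l, b ∈ A l', l < l', hence disjoint (a = b is E) and not R (R symmetric):
contradiction. USES: SUPR, KST. -/
def D_ES : Prop := ∀ (κ : ℕ) (ε : ℝ), 0 < ε → ∃ k0 : ℕ, ∀ V : Finset ℕ, k0 ≤ V.card →
  ∀ R : ℕ → ℕ → Prop, (∀ a b, R a b → R b a) →
  (∀ A : Fin 5 → Finset ℕ, (∀ i, A i ⊆ V ∧ (A i).card = κ) → (∀ i j, i ≠ j → Disjoint (A i) (A j)) →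
    ∃ i j, i ≠ j ∧ ∃ a ∈ A i, ∃ b ∈ A j, R a b) →
  (1 / 4 - ε) * (V.card : ℝ) ^ 2 ≤ (((V ×ˢ V).filter (fun y => R y.1 y.2)).card : ℝ)

end MPb51559.DP
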