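import Pool.Agent.Work.MP_b51559_nt.DP.Stmts

set_option autoImplicit false

/-!
# Item TRZ of block DP
-/

namespace MPb51559.DP

open Finset
open scoped Classical

theorem TRZ_wl_nonneg {p : ℕ} (hp : p.Prime) (n : ℕ) : 0 ≤ DN.wl p n := by
  have h2 : (2 : ℝ) ≤ p := by exact_mod_cast hp.two_le
  unfold DN.wl
  split_ifs
  · apply div_nonneg <;> linarith
  · apply div_nonneg
    · apply mul_nonneg <;> linarith
    · positivity

theorem TRZ_wl_le {p : ℕ} (h47 : 47 < p) (n : ℕ) : DN.wl p n ≤ ul p n := by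
  have h2 : (47 : ℝ) < p := by exact_mod_cast h47
  unfold DN.wl ul
  split_ifs
  · rw [div_le_div_iff₀ (by linarith) (by linarith)]
    nlinarith
  · rw [div_le_one (by nlinarith)]
    nlinarith

theorem TRZ_ul_ge {p : ℕ} (h47 : 47 < p) (n : ℕ) : 1 ≤ ul p n := by
  have h2 : (47 : ℝ) < p := by exact_mod_cast h47
  unfold ul
  split_ifs
  · rw [le_div_iff₀ (by linarith)]
    linarith
  · exact le_rfl

theorem TRZ_split {z : ℕ} (hz : 47 ≤ z) (n : ℕ) :
    wz z n = wz 47 n * ∏ p ∈ pt z, DN.wl p n := by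
  have h1 : pz z = pz 47 ∪ pt z := by
    ext p
    simp only [pz, pt, mem_union, mem_filter, mem_range]
    constructor
    · rintro ⟨h1, h2⟩
      by_cases h : 47 < p
      · exact Or.inr ⟨⟨h1, h2⟩, h⟩
      · exact Or.inl ⟨by omega, h2⟩
    · rintro (⟨h1, h2⟩ | ⟨⟨h1, h2⟩, h3⟩)
      · exact ⟨by omega, h2⟩
      · exact ⟨h1, h2⟩
  have h2 : Disjoint (pz 47) (pt z) := by
    rw [Finset.disjoint_left]
    intro p hp hq
    simp only [pz, pt, mem_filter, mem_range] at hp hq
    omega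
  unfold wz
  rw [h1, Finset.prod_union h2]

theorem prf_TRZ : D_TRZ := by
  intro z hz n t
  have hw0 : 0 ≤ wz 47 n := by
    unfold wz
    apply Finset.prod_nonneg
    intro p hp
    apply TRZ_wl_nonneg
    simp only [pz, mem_filter] at hp
    exact hp.2
  have hpt : ∀ p ∈ pt z, p.Prime ∧ 47 < p := by
    intro p hp
    simp only [pz, pt, mem_filter] at hp
    exact ⟨hp.1.2, hp.2⟩
  have hU1 : (1 : ℝ) ≤ ∏ p ∈ pt z, ul p n := by
    have h := Finset.prod_le_prod (s := pt z) (f := fun _ => (1 : ℝ)) (g := fun p => ul p n)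
      (fun _ _ => zero_le_one) (fun p hp => TRZ_ul_ge (hpt p hp).2 n)
    simpa using h
  have hle : ∏ p ∈ pt z, DN.wl p n ≤ ∏ p ∈ pt z, ul p n :=
    Finset.prod_le_prod (fun p hp => TRZ_wl_nonneg (hpt p hp).1 n)
      (fun p hp => TRZ_wl_le (hpt p hp).2 n)
  have hwz : wz z n ≤ wz 47 n * ∏ p ∈ pt z, ul p n := by
    rw [TRZ_split hz n]
    exact mul_le_mul_of_nonneg_left hle hw0
  set U := ∏ p ∈ pt z, ul p n with hU
  have hmu : 0 ≤ wz 47 n * (U - 1) := mul_nonneg hw0 (by linarith)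
  have hm1 := le_max_left (wz 47 n - t) 0
  have hm2 := le_max_right (wz 47 n - t) 0
  apply max_le
  · have : wz 47 n * U = wz 47 n + wz 47 n * (U - 1) := by ring
    linarith
  · linarith

end MPb51559.DP
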