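import Pool.Agent.Work.MP_b51559_nt.DP.WB
import Pool.Agent.Work.MP_b51559_nt.DP.CB
import Pool.Agent.Work.MP_b51559_nt.DP.C2
import Pool.Agent.Work.MP_b51559_nt.DP.PAIR
import Pool.Agent.Work.MP_b51559_nt.DP.PRO
import Pool.Agent.Work.MP_b51559_nt.DP.TU5
import Pool.Agent.Work.MP_b51559_nt.DP.SUPR
import Pool.Agent.Work.MP_b51559_nt.DP.KS1
import Pool.Agent.Work.MP_b51559_nt.DP.KST
import Pool.Agent.Work.MP_b51559_nt.DP.SEP
import Pool.Agent.Work.MP_b51559_nt.DP.REC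
import Pool.Agent.Work.MP_b51559_nt.DP.RCK
import Pool.Agent.Work.MP_b51559_nt.DP.KER
import Pool.Agent.Work.MP_b51559_nt.DP.E47
import Pool.Agent.Work.MP_b51559_nt.DP.TAIL
import Pool.Agent.Work.MP_b51559_nt.DP.MU
import Pool.Agent.Work.MP_b51559_nt.DP.TRZ
import Pool.Agent.Work.MP_b51559_nt.DP.MEAN
import Pool.Agent.Work.MP_b51559_nt.DP.DEN
import Pool.Agent.Work.MP_b51559_nt.DP.KEY
import Pool.Agent.Work.MP_b51559_nt.DP.UNI
import Pool.Agent.Work.MP_b51559_nt.DP.LOW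
import Pool.Agent.Work.MP_b51559_nt.DP.LOG
import Pool.Agent.Work.MP_b51559_nt.DP.ES

set_option autoImplicit false

/-!
# Block DP: assembly
-/

namespace MPb51559.DP

theorem all_KST : D_KST := prf_KST prf_KS1
theorem all_SUPR : D_SUPR := prf_SUPR prf_TU5
theorem all_PRO : D_PRO := prf_PRO (prf_PAIR prf_C2) prf_CB prf_WB
theorem all_SEP : D_SEP := prf_SEP all_PRO all_SUPR all_KST
theorem all_MEAN : D_MEAN := prf_MEAN prf_WB (prf_E47 prf_REC prf_RCK prf_KER) prf_TAIL prf_MU prf_TRZ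
theorem all_DEN : D_DEN := prf_DEN all_MEAN
theorem all_KEY : D_KEY := prf_KEY all_SEP all_DEN
theorem all_UNI : D_UNI := prf_UNI all_KEY
theorem all_LOW : D_LOW := prf_LOW all_KEY
theorem all_LOG : D_LOG := prf_LOG all_UNI
theorem all_ES : D_ES := prf_ES all_SUPR all_KST

end MPb51559.DP
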