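import Pool.Agent.Work.MP_b51559_nt.DP.Stmts
import Pool.Agent.Work.MP_b51559_nt.DN.LOW

set_option autoImplicit false

/-!
# Item LOW of block DP: lower density of a fixed set
-/

namespace MPb51559.DP

open Finset
open scoped Classical

theorem prf_LOW (h1 : D_KEY) : D_LOW := by
  intro κ z P hP
  by_contra hcon
  push Not at hcon
  choose g hg hg' using hcon
  obtain ⟨r, N0, C, hK⟩ := h1 κ z
  have hmono : Monotone (DN.LOW_sc g N0 C) :=
    monotone_nat_of_le_succ fun j => (DN.LOW_step hg N0 C j).1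
  obtain ⟨j, -, h2⟩ := hK (DN.LOW_sc g N0 C r) P (hP _) (DN.LOW_sc g N0 C)
    (fun j hj => ⟨DN.LOW_ge hg N0 C j, hmono hj.le⟩) (fun j _ => (DN.LOW_step hg N0 C j).2)
  obtain ⟨m, hm⟩ := DN.LOW_mem (g := g) N0 C j
  have h3 := hg' m
  rw [hm] at h2
  omega

end MPb51559.DP
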